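import Mathlib
import Pool.Agent.TH974.IH.Box

set_option autoImplicit false

open Finset MeasureTheory ProbabilityTheory Filter Topology
open scoped ENNReal NNReal

namespace Pool.Agent.TH592.J2169

open Pool.Agent.TH974.IH

/-- the net flow as a sum over the directions -/
theorem flx_eq {d : ℕ} {R : Type*} [CommRing R] (E : Finset (Ed d)) (ω : Env d) (u : Zd d → R)
    (x : Zd d) : flx E ω u x = ∑ i : Fin d,
      ((if (x, i) ∈ E then (if ω (x, i) = true then u (x + Pi.single i 1) - u x else 0) else 0) +
      (if (x - Pi.single i 1, i) ∈ E then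
        (if ω (x - Pi.single i 1, i) = true then u (x - Pi.single i 1) - u x else 0) else 0)) := by
  classical
  have h1 : ∀ e : Ed d, (if ω e = true then
      ((if e.1 = x then u (hd e) - u x else 0) + (if hd e = x then u e.1 - u x else 0)) else 0) =
      ∑ i : Fin d, ((if e = (x, i) then
        (if ω (x, i) = true then u (x + Pi.single i 1) - u x else 0) else 0) +
        (if e = (x - Pi.single i 1, i) then
        (if ω (x - Pi.single i 1, i) = true then u (x - Pi.single i 1) - u x else 0) else 0)) := by
    rintro ⟨y, j⟩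
    rw [Finset.sum_add_distrib]
    have a1 : ∑ i : Fin d, (if (y, j) = (x, i) then
        (if ω (x, i) = true then u (x + Pi.single i 1) - u x else 0) else 0) =
        if y = x then (if ω (x, j) = true then u (x + Pi.single j 1) - u x else 0) else 0 := by
      by_cases hy : y = x
      · subst hy
        simp only [Prod.mk.injEq, true_and, if_true]
        rw [Finset.sum_ite_eq]
        simp
      · simp [hy]
    have a2 : ∑ i : Fin d, (if (y, j) = (x - Pi.single i 1, i) then
        (if ω (x - Pi.single i 1, i) = true then u (x - Pi.single i 1) - u x else 0) else 0) =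
        if hd (y, j) = x then
          (if ω (x - Pi.single j 1, j) = true then u (x - Pi.single j 1) - u x else 0) else 0 := by
      have a3 : ∀ i : Fin d, ((y, j) = (x - Pi.single i (1 : ℤ), i)) ↔
          (j = i ∧ hd (y, j) = x) := by
        intro i
        unfold hd
        simp only [Prod.mk.injEq]
        constructor
        · rintro ⟨h, rfl⟩
          exact ⟨rfl, by rw [h]; simp⟩
        · rintro ⟨rfl, h⟩
          exact ⟨by rw [← h]; simp, rfl⟩
      simp only [a3]
      by_cases hy : hd (y, j) = x
      · simp only [hy, and_true, if_true]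
        rw [Finset.sum_ite_eq]
        simp
      · simp [hy]
    rw [a1, a2]
    by_cases hω : ω (y, j) = true
    · rw [if_pos hω]
      congr 1
      · by_cases hy : y = x
        · subst hy; simp [hω, hd]
        · simp [hy]
      · by_cases hy : hd (y, j) = x
        · have : x - Pi.single j 1 = y := by rw [← hy]; simp [hd]
          simp [hy, this, hω]
        · simp [hy]
    · rw [if_neg hω]
      by_cases hy : y = x
      · subst hy
        rw [if_pos rfl, if_neg hω, zero_add]
        by_cases hy2 : hd (y, j) = y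
        · have : y - Pi.single j 1 = y := by nth_rewrite 1 [← hy2]; simp [hd]
          simp [this, hω]
        · simp [hy2]
      · rw [if_neg hy, zero_add]
        by_cases hy2 : hd (y, j) = x
        · have : x - Pi.single j 1 = y := by rw [← hy2]; simp [hd]
          simp [this, hω]
        · simp [hy2]
  unfold flx
  simp only [h1]
  rw [Finset.sum_comm]
  refine Finset.sum_congr rfl fun i _ => ?_
  rw [Finset.sum_add_distrib, Finset.sum_ite_eq', Finset.sum_ite_eq']

theorem TLdet {d : ℕ} {ι : Type*} [DecidableEq ι] (q : ℕ) (B : Finset (Zd d)) (A : Finset ι)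
    (V T : ι → Finset (Zd d)) (E : ι → Finset (Ed d)) (ω ω' : Env d)
    (hTV : ∀ i ∈ A, T i ⊆ V i) (hEV : ∀ i ∈ A, ∀ e ∈ E i, e.1 ∈ V i ∧ hd e ∈ V i)
    (hdis : ∀ i ∈ A, ∀ j ∈ A, i ≠ j → Disjoint (V i) (V j))
    (hcl : ∀ i ∈ A, ∀ e, e ∉ E i → ((e.1 ∈ V i ∧ e.1 ∉ T i) ∨ (hd e ∈ V i ∧ hd e ∉ T i)) →
      ω e = false)
    (hω : ∀ e, (∀ i ∈ A, e ∉ E i) → ω' e = ω e) (u : Zd d → ℤ)
    (hu : ∀ x ∈ B, Lap ω u x = 0) (hfl : ∀ i ∈ A, Flat q ω (T i) (E i) u) :
    ∃ w : Zd d → ZMod q, (∀ x ∈ B, Lap ω' w x = 0) ∧
      (∀ i ∈ A, ∀ x ∈ V i, ∀ y ∈ V i, w x = w y) ∧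
      ∀ x, (∀ i ∈ A, x ∉ V i) → w x = ((u x : ℤ) : ZMod q) := by
  classical
  -- the common value on `T i`
  obtain ⟨c, hc⟩ : ∃ c : ι → ZMod q, ∀ i ∈ A, ∀ x ∈ T i, c i = ((u x : ℤ) : ZMod q) := by
    refine ⟨fun i => if h : (T i).Nonempty then ((u h.choose : ℤ) : ZMod q) else 0, ?_⟩
    intro i hi x hx
    have hne : (T i).Nonempty := ⟨x, hx⟩
    simp only [dif_pos hne]
    exact (hfl i hi).1 _ hne.choose_spec _ hx
  have huniq : ∀ i ∈ A, ∀ j ∈ A, ∀ x, x ∈ V i → x ∈ V j → i = j := by
    intro i hi j hj x hxi hxj
    by_contra hne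
    exact (Finset.disjoint_left.1 (hdis i hi j hj hne)) hxi hxj
  obtain ⟨w, hw1, hw2⟩ : ∃ w : Zd d → ZMod q, (∀ i ∈ A, ∀ x ∈ V i, w x = c i) ∧
      ∀ x, (∀ i ∈ A, x ∉ V i) → w x = ((u x : ℤ) : ZMod q) := by
    refine ⟨fun x => if h : ∃ i ∈ A, x ∈ V i then c h.choose else ((u x : ℤ) : ZMod q), ?_, ?_⟩
    · intro i hi x hx
      have h : ∃ i ∈ A, x ∈ V i := ⟨i, hi, hx⟩
      simp only [dif_pos h]
      rw [huniq _ h.choose_spec.1 i hi x h.choose_spec.2 hx]
    · intro x hx
      have h : ¬ ∃ i ∈ A, x ∈ V i := by
        rintro ⟨i, hi, hx'⟩; exact hx i hi hx'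
      simp only [dif_neg h]
  have hw3 : ∀ i ∈ A, ∀ x ∈ T i, w x = ((u x : ℤ) : ZMod q) := by
    intro i hi x hx
    rw [hw1 i hi x (hTV i hi hx), hc i hi x hx]
  refine ⟨w, ?_, ?_, hw2⟩
  · intro x hx
    -- the value at the other endpoint of an open edge outside the boxes
    have good : ∀ e : Ed d, (∀ i ∈ A, e ∉ E i) → ω e = true → w e.1 = ((u e.1 : ℤ) : ZMod q) ∧
        w (hd e) = ((u (hd e) : ℤ) : ZMod q) := by
      intro e he hoe
      constructor
      · by_cases h : ∃ i ∈ A, e.1 ∈ V i
        · obtain ⟨i, hi, hV⟩ := h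
          by_cases hT : e.1 ∈ T i
          · exact hw3 i hi _ hT
          · have := hcl i hi e (he i hi) (Or.inl ⟨hV, hT⟩)
            rw [this] at hoe; exact absurd hoe (by simp)
        · push Not at h
          exact hw2 _ h
      · by_cases h : ∃ i ∈ A, hd e ∈ V i
        · obtain ⟨i, hi, hV⟩ := h
          by_cases hT : hd e ∈ T i
          · exact hw3 i hi _ hT
          · have := hcl i hi e (he i hi) (Or.inr ⟨hV, hT⟩)
            rw [this] at hoe; exact absurd hoe (by simp)
        · push Not at h
          exact hw2 _ h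
    have hdx : ∀ j : Fin d, hd (x, j) = x + Pi.single j 1 := fun j => rfl
    have hdx' : ∀ j : Fin d, hd (x - Pi.single j 1, j) = x := fun j => by simp [hd]
    -- terms of edges outside all the boxes
    have t1 : ∀ j : Fin d, (∀ i ∈ A, ((x, j) : Ed d) ∉ E i) →
        (if ω' (x, j) = true then w (x + Pi.single j 1) - w x else 0) =
        (((if ω (x, j) = true then u (x + Pi.single j 1) - u x else 0 : ℤ)) : ZMod q) := by
      intro j hj
      rw [hω _ hj]
      by_cases ho : ω (x, j) = true
      · obtain ⟨g1, g2⟩ := good _ hj ho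
        rw [if_pos ho, if_pos ho]
        rw [hdx] at g2
        simp only at g1
        rw [g1, g2]; push_cast; rfl
      · rw [if_neg ho, if_neg ho]; simp
    have t2 : ∀ j : Fin d, (∀ i ∈ A, ((x - Pi.single j 1, j) : Ed d) ∉ E i) →
        (if ω' (x - Pi.single j 1, j) = true then w (x - Pi.single j 1) - w x else 0) =
        (((if ω (x - Pi.single j 1, j) = true then u (x - Pi.single j 1) - u x else 0 : ℤ)) :
          ZMod q) := by
      intro j hj
      rw [hω _ hj]
      by_cases ho : ω (x - Pi.single j 1, j) = true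
      · obtain ⟨g1, g2⟩ := good _ hj ho
        rw [if_pos ho, if_pos ho]
        rw [hdx'] at g2
        simp only at g1
        rw [g1, g2]; push_cast; rfl
      · rw [if_neg ho, if_neg ho]; simp
    have hLu : ((Lap ω u x : ℤ) : ZMod q) = 0 := by rw [hu x hx]; simp
    by_cases hxV : ∃ i ∈ A, x ∈ V i
    · obtain ⟨i, hi, hxi⟩ := hxV
      have hout : ∀ e : Ed d, (e.1 = x ∨ hd e = x) → e ∉ E i → ∀ j ∈ A, e ∉ E j := by
        intro e he hei j hj hej
        have hji : x ∈ V j := by
          rcases he with rfl | rfl
          · exact (hEV j hj e hej).1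
          · exact (hEV j hj e hej).2
        exact hei ((huniq i hi j hj x hxi hji) ▸ hej)
      have z1 : ∀ j : Fin d, ((x, j) : Ed d) ∈ E i →
          (if ω' (x, j) = true then w (x + Pi.single j 1) - w x else 0) = 0 := by
        intro j hj
        have h2 := (hEV i hi _ hj).2
        rw [hdx] at h2
        rw [hw1 i hi _ h2, hw1 i hi _ hxi]; simp
      have z2 : ∀ j : Fin d, ((x - Pi.single j 1, j) : Ed d) ∈ E i →
          (if ω' (x - Pi.single j 1, j) = true then w (x - Pi.single j 1) - w x else 0) = 0 := by
        intro j hj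
        have h2 := (hEV i hi _ hj).1
        simp only at h2
        rw [hw1 i hi _ h2, hw1 i hi _ hxi]; simp
      by_cases hxT : x ∈ T i
      · -- x is a terminal
        have hf := (hfl i hi).2 x hxT
        rw [flx_eq] at hf
        have key : Lap ω' w x = ((Lap ω u x : ℤ) : ZMod q) -
            ((∑ j : Fin d,
      ((if (x, j) ∈ E i then (if ω (x, j) = true then u (x + Pi.single j 1) - u x else 0) else 0) +
      (if (x - Pi.single j 1, j) ∈ E i then
        (if ω (x - Pi.single j 1, j) = true then u (x - Pi.single j 1) - u x else 0) else 0)) : ℤ) :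
              ZMod q) := by
          unfold Lap
          rw [← Int.cast_sub, ← Finset.sum_sub_distrib, Int.cast_sum]
          refine Finset.sum_congr rfl fun j _ => ?_
          have s1 : (if ω' (x, j) = true then w (x + Pi.single j 1) - w x else 0) =
              (((if ω (x, j) = true then u (x + Pi.single j 1) - u x else 0) -
                (if (x, j) ∈ E i then
                  (if ω (x, j) = true then u (x + Pi.single j 1) - u x else 0) else 0) : ℤ) :
                ZMod q) := by
            by_cases he : ((x, j) : Ed d) ∈ E i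
            · rw [z1 j he, if_pos he]; simp
            · rw [t1 j (hout _ (Or.inl rfl) he), if_neg he, sub_zero]
          have s2 : (if ω' (x - Pi.single j 1, j) = true then w (x - Pi.single j 1) - w x else 0) =
              (((if ω (x - Pi.single j 1, j) = true then u (x - Pi.single j 1) - u x else 0) -
                (if (x - Pi.single j 1, j) ∈ E i then
                  (if ω (x - Pi.single j 1, j) = true then u (x - Pi.single j 1) - u x else 0)
                  else 0) : ℤ) : ZMod q) := by
            by_cases he : ((x - Pi.single j 1, j) : Ed d) ∈ E i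
            · rw [z2 j he, if_pos he]; simp
            · rw [t2 j (hout _ (Or.inr (hdx' j)) he), if_neg he, sub_zero]
          rw [s1, s2, ← Int.cast_add]
          congr 1
          ring
        rw [key, hLu, hf, sub_zero]
      · -- x is not a terminal
        unfold Lap
        refine Finset.sum_eq_zero fun j _ => ?_
        have s1 : (if ω' (x, j) = true then w (x + Pi.single j 1) - w x else 0) = 0 := by
          by_cases he : ((x, j) : Ed d) ∈ E i
          · exact z1 j he
          · rw [t1 j (hout _ (Or.inl rfl) he), hcl i hi _ he (Or.inl ⟨hxi, hxT⟩)]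
            simp
        have s2 : (if ω' (x - Pi.single j 1, j) = true then w (x - Pi.single j 1) - w x else 0) =
            0 := by
          by_cases he : ((x - Pi.single j 1, j) : Ed d) ∈ E i
          · exact z2 j he
          · rw [t2 j (hout _ (Or.inr (hdx' j)) he), hcl i hi _ he
              (Or.inr (by rw [hdx']; exact ⟨hxi, hxT⟩))]
            simp
        rw [s1, s2, add_zero]
    · push Not at hxV
      have hout : ∀ e : Ed d, (e.1 = x ∨ hd e = x) → ∀ j ∈ A, e ∉ E j := by
        intro e he j hj hej
        apply hxV j hj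
        rcases he with rfl | rfl
        · exact (hEV j hj e hej).1
        · exact (hEV j hj e hej).2
      have : Lap ω' w x = ((Lap ω u x : ℤ) : ZMod q) := by
        unfold Lap
        rw [Int.cast_sum]
        refine Finset.sum_congr rfl fun j _ => ?_
        rw [t1 j (hout _ (Or.inl rfl)), t2 j (hout _ (Or.inr (hdx' j))), ← Int.cast_add]
      rw [this, hLu]
  · intro i hi x hx y hy
    rw [hw1 i hi x hx, hw1 i hi y hy]

end Pool.Agent.TH592.J2169
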