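import Mathlib
import Pool.Agent.TH202.FlRes
import Pool.Agent.TH202.Cen

/-!
FL-IR (for helper202, MP_aa0b3f_ag): independent residues and residual algebraicity.
-/

set_option autoImplicit false
namespace Pool.Agent.TH592.FL_IR
open Pool.Agent.H436R3.Fol Pool.Agent.TH202 MvPolynomial

section field

variable {L : Type} [Field L] [Algebra ℂ L]

lemma pair_on {a b : L} : AlgebraicIndependent ℂ ![a, b] ↔
    a ≠ b ∧ AlgebraicIndepOn ℂ id ({a, b} : Set L) := by
  have hr : Set.range ![a, b] = {a, b} := by simp [Set.pair_comm]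
  constructor
  · intro h
    refine ⟨fun hab => ?_, ?_⟩
    · have := h.injective (a₁ := 0) (a₂ := 1) (by simpa using hab)
      exact absurd this (by decide)
    · have h1 := h.to_subtype_range
      rw [hr] at h1
      exact h1
  · rintro ⟨hab, h⟩
    have hinj : Function.Injective ![a, b] := by
      intro i j hij
      fin_cases i <;> fin_cases j <;> simp_all
    rw [← algebraicIndependent_subtype_range hinj, hr]
    exact h

lemma pair_symm {a b : L} (h : AlgebraicIndependent ℂ ![a, b]) :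
    AlgebraicIndependent ℂ ![b, a] := by
  rw [pair_on] at h ⊢
  refine ⟨h.1.symm, ?_⟩
  rw [Set.pair_comm]
  exact h.2

lemma pair_iff {a b : L} : AlgebraicIndependent ℂ ![a, b] ↔
    Transcendental ℂ a ∧ Transcendental (Algebra.adjoin ℂ ({a} : Set L)) b := by
  rw [pair_on]
  by_cases hab : a = b
  · subst hab
    constructor
    · rintro ⟨h, -⟩
      exact absurd rfl h
    · rintro ⟨-, h⟩
      exact absurd (isAlgebraic_algebraMap
        (⟨a, Algebra.subset_adjoin rfl⟩ : Algebra.adjoin ℂ ({a} : Set L))) h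
  · rw [Set.pair_comm, AlgebraicIndepOn.insert_iff (by simpa using fun h => hab h.symm)]
    rw [Set.image_id]
    have h1 : AlgebraicIndepOn ℂ id ({a} : Set L) ↔ Transcendental ℂ a := by
      have := algebraicIndependent_singleton_iff (R := ℂ)
        (x := fun i : ({a} : Set L) => id (i : L)) (⟨a, rfl⟩ : ({a} : Set L))
      exact this
    rw [h1]
    constructor
    · rintro ⟨-, h⟩; exact h
    · intro h; exact ⟨hab, h⟩

lemma exists_pair {S : Set L} {a b : L} (h : AlgebraicIndependent ℂ ![a, b])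
    (ha : IsAlgebraic (Algebra.adjoin ℂ S) a) (hb : IsAlgebraic (Algebra.adjoin ℂ S) b) :
    ∃ a' ∈ S, ∃ b' ∈ S, AlgebraicIndependent ℂ ![a', b'] := by
  rw [pair_on] at h
  obtain ⟨hab, hI⟩ := h
  set M := AlgebraicIndependent.matroid ℂ L with hM
  have hI' : M.Indep ({a, b} : Set L) := AlgebraicIndependent.matroid_indep_iff.2 hI
  have hcl : ({a, b} : Set L) ⊆ M.closure S := by
    rw [hM, AlgebraicIndependent.matroid_closure_eq]
    intro x hx
    rw [SetLike.mem_coe, Subalgebra.mem_algebraicClosure]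
    rcases hx with rfl | hx
    · exact ha
    · rw [Set.mem_singleton_iff] at hx
      rw [hx]
      exact hb
  obtain ⟨B, hB⟩ := M.exists_isBasis S
  have h2 : (2 : ℕ∞) ≤ B.encard := by
    have h3 : ({a, b} : Set L).encard ≤ M.eRk (M.closure S) := hI'.encard_le_eRk_of_subset hcl
    rw [M.eRk_closure_eq, ← hB.encard_eq_eRk, Set.encard_pair hab] at h3
    exact h3
  have h4 : 1 < B.encard := lt_of_lt_of_le (by norm_num) h2
  obtain ⟨x, y, hx, hy, hxy⟩ := Set.one_lt_encard_iff.1 h4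
  refine ⟨x, hB.subset hx, y, hB.subset hy, ?_⟩
  rw [pair_on]
  refine ⟨hxy, ?_⟩
  have h5 : M.Indep ({x, y} : Set L) := hB.indep.subset (by
    intro z hz
    rcases hz with rfl | hz
    · exact hx
    · rw [Set.mem_singleton_iff] at hz
      rw [hz]
      exact hy)
  exact AlgebraicIndependent.matroid_indep_iff.1 h5

end field

section aux
variable {K : Type} [Field K] [Algebra ℂ K] (w : DVal K)

/-- the valuation ring as an algebra -/
@[reducible] noncomputable def algV : Algebra ℂ (VS w) :=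
  RingHom.toAlgebra ((algebraMap ℂ K).codRestrict (VS w) (fun z => w.reg_const z))

attribute [local instance] algV

local instance towerV : IsScalarTower ℂ (VS w) K := IsScalarTower.of_algebraMap_eq (fun _ => rfl)

/-- the residue field -/
abbrev kap : Type := IsLocalRing.ResidueField (VS w)

/-- residue map -/
noncomputable abbrev res (t : VS w) : kap w := IsLocalRing.residue (VS w) t

variable {w}

lemma res_eq_zero (t : VS w) : res w t = 0 ↔ w.Pos (t : K) := by
  rw [IsLocalRing.residue_eq_zero_iff, IsLocalRing.mem_maximalIdeal, mem_nonunits_iff]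
  by_cases h0 : (t : K) = 0
  · have : t = 0 := Subtype.ext h0
    subst this
    simp [DVal.Pos]
  · have h1 : 0 ≤ w.ord (t : K) := (t.2 : w.Reg (t : K)).resolve_left h0
    constructor
    · intro hu
      right
      rcases lt_or_eq_of_le h1 with h | h
      · exact h
      · exfalso
        apply hu
        have h2 : w.Reg (t : K)⁻¹ := w.reg_inv h0 h.symm
        refine IsUnit.of_mul_eq_one (⟨(t : K)⁻¹, h2⟩ : VS w) ?_
        apply Subtype.ext
        exact mul_inv_cancel₀ h0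
    · rintro (h | h) hu
      · exact h0 h
      · obtain ⟨u, hu'⟩ := hu
        have h2 : (t : K) * ((↑u⁻¹ : VS w) : K) = 1 := by
          rw [← hu']
          have := congrArg (fun z : VS w => (z : K)) (u.mul_inv)
          exact this
        have h3 : ((↑u⁻¹ : VS w) : K) ≠ 0 := by
          intro h; rw [h, mul_zero] at h2; exact zero_ne_one h2
        have h4 : 0 ≤ w.ord ((↑u⁻¹ : VS w) : K) :=
          ((↑u⁻¹ : VS w).2 : w.Reg _).resolve_left h3
        have h5 := congrArg w.ord h2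
        rw [w.map_mul _ _ h0 h3, w.ord_one] at h5
        omega

lemma aeval_coe (t : Fin 2 → VS w) (q : MvPolynomial (Fin 2) ℂ) :
    ((aeval t q : VS w) : K) = aeval (fun i => (t i : K)) q := by
  have := MvPolynomial.aeval_algebraMap_apply (A := VS w) K t q
  exact this.symm

lemma aeval_res (t : Fin 2 → VS w) (q : MvPolynomial (Fin 2) ℂ) :
    res w (aeval t q : VS w) = aeval (fun i => res w (t i)) q := by
  have := MvPolynomial.aeval_algebraMap_apply (A := VS w) (kap w) t q
  exact this.symm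

lemma vec_eq {A B : Type} (φ : A → B) (a b : A) : (fun i => φ (![a, b] i)) = ![φ a, φ b] := by
  funext i
  fin_cases i <;> rfl

lemma ind2_iff {f g : K} (hf : f ∈ VS w) (hg : g ∈ VS w) :
    Ind2 w f g ↔ AlgebraicIndependent ℂ ![res w ⟨f, hf⟩, res w ⟨g, hg⟩] := by
  have key : ∀ q : MvPolynomial (Fin 2) ℂ,
      w.Pos (aeval ![f, g] q) ↔ aeval ![res w ⟨f, hf⟩, res w ⟨g, hg⟩] q = 0 := by
    intro q
    have h1 := aeval_coe (![⟨f, hf⟩, ⟨g, hg⟩] : Fin 2 → VS w) q
    rw [vec_eq (fun z : VS w => (z : K))] at h1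
    have h2 := aeval_res (![⟨f, hf⟩, ⟨g, hg⟩] : Fin 2 → VS w) q
    rw [vec_eq (fun z : VS w => res w z)] at h2
    rw [← h2, res_eq_zero, h1]
  rw [algebraicIndependent_iff]
  constructor
  · rintro ⟨-, -, h⟩ q hq
    by_contra hne
    exact h q hne ((key q).2 hq)
  · intro h
    exact ⟨hf, hg, fun q hq hp => hq (h q ((key q).1 hp))⟩

/-- the residues of the elements of `S` -/
def resS (w : DVal K) (S : Set K) : Set (kap w) := (fun t => res w t) '' {t : VS w | (t : K) ∈ S}

lemma rsub_eq {S : Set K} (hS : ∀ t ∈ S, w.Reg t) :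
    rsub w S = (Algebra.adjoin ℂ (resS w S)).toSubring := by
  set S0 : Set (VS w) := {t : VS w | (t : K) ∈ S} with hS0
  have h1 : (IsScalarTower.toAlgHom ℂ (VS w) K) '' S0 = S := by
    ext x
    constructor
    · rintro ⟨t, ht, rfl⟩
      exact ht
    · intro hx
      exact ⟨⟨x, hS x hx⟩, hx, rfl⟩
  have h2 : Algebra.adjoin ℂ S = (Algebra.adjoin ℂ S0).map (IsScalarTower.toAlgHom ℂ (VS w) K) := by
    rw [AlgHom.map_adjoin, h1]
  have h3 : Algebra.adjoin ℂ (resS w S) =
      (Algebra.adjoin ℂ S0).map (IsScalarTower.toAlgHom ℂ (VS w) (kap w)) := by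
    rw [AlgHom.map_adjoin]
    rfl
  ext x
  constructor
  · rintro ⟨t, ht, rfl⟩
    have ht' : (t : K) ∈ Algebra.adjoin ℂ S := ht
    rw [h2] at ht'
    obtain ⟨t', ht1, ht2⟩ := ht'
    have : t' = t := Subtype.ext ht2
    subst this
    change _ ∈ Algebra.adjoin ℂ (resS w S)
    rw [h3]
    exact ⟨t', ht1, rfl⟩
  · intro hx
    change _ ∈ Algebra.adjoin ℂ (resS w S) at hx
    rw [h3] at hx
    obtain ⟨t, ht1, rfl⟩ := hx
    refine ⟨t, ?_, rfl⟩
    change (t : K) ∈ Algebra.adjoin ℂ S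
    rw [h2]
    exact ⟨t, ht1, rfl⟩

lemma RA_iff {S : Set K} (hS : ∀ t ∈ S, w.Reg t) {f : K} (hf : f ∈ VS w) :
    RA w S f ↔ IsAlgebraic (Algebra.adjoin ℂ (resS w S)) (res w ⟨f, hf⟩) := by
  unfold RA
  rw [rsub_eq hS]
  constructor
  · rintro ⟨_, h⟩
    exact h
  · intro h
    exact ⟨hf, h⟩

lemma resS_singleton {s : K} (hs : s ∈ VS w) : resS w {s} = {res w ⟨s, hs⟩} := by
  ext x
  constructor
  · rintro ⟨t, ht, rfl⟩
    have : t = ⟨s, hs⟩ := Subtype.ext ht
    rw [this]
    rfl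
  · intro hx
    exact ⟨⟨s, hs⟩, rfl, hx.symm⟩

lemma resS_empty : resS w (∅ : Set K) = ∅ := by
  ext x
  constructor
  · rintro ⟨t, ht, rfl⟩
    exact absurd ht (Set.notMem_empty _)
  · intro hx
    exact absurd hx (Set.notMem_empty _)

lemma RA_empty_iff {f : K} (hf : f ∈ VS w) : RA w ∅ f ↔ IsAlgebraic ℂ (res w ⟨f, hf⟩) := by
  rw [RA_iff (fun t ht => absurd ht (Set.notMem_empty _)) hf, resS_empty, Algebra.adjoin_empty]
  exact Subalgebra.isAlgebraic_bot_iff (algebraMap ℂ (kap w)).injective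

end aux

variable {K : Type} [Field K] [Algebra ℂ K] {w : DVal K} {S : Set K}

attribute [local instance] algV

/-- Two elements with independent residues that are residually algebraic over `S` give two such
elements of `S`. -/
theorem ind2_of_RA (hS : ∀ t ∈ S, w.Reg t) {f g : K} (h : Ind2 w f g) (hf : RA w S f)
    (hg : RA w S g) : ∃ f' ∈ S, ∃ g' ∈ S, Ind2 w f' g' := by
  rw [RA_iff hS h.1] at hf
  rw [RA_iff hS h.2.1] at hg
  obtain ⟨a, ⟨t, ht, rfl⟩, b, ⟨u, hu, rfl⟩, hab⟩ :=
    exists_pair ((ind2_iff (w := w) h.1 h.2.1).1 h) hf hg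
  exact ⟨t, ht, u, hu, (ind2_iff t.2 u.2).2 hab⟩

/-- Without two independent elements everything is algebraic over one of them. -/
theorem RA_of_not_ind2 {s f : K} (hs : w.Reg s) (hf : w.Reg f) (hst : ¬ RA w ∅ s)
    (h : ¬ Ind2 w s f) : RA w {s} f := by
  rw [RA_empty_iff hs] at hst
  rw [ind2_iff hs hf, pair_iff] at h
  rw [RA_iff (fun t ht => by rw [Set.mem_singleton_iff] at ht; rw [ht]; exact hs) hf,
    resS_singleton hs]
  by_contra hcon
  exact h ⟨hst, hcon⟩

theorem not_RA_of_ind2 {s f : K} (h : Ind2 w s f) : ¬ RA w {s} f := by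
  rw [RA_iff (fun t ht => by rw [Set.mem_singleton_iff] at ht; rw [ht]; exact h.1) h.2.1,
    resS_singleton h.1]
  have h1 := (ind2_iff (w := w) h.1 h.2.1).1 h
  rw [pair_iff] at h1
  exact h1.2

theorem ind2_symm {s f : K} (h : Ind2 w s f) : Ind2 w f s :=
  (ind2_iff h.2.1 h.1).2 (pair_symm ((ind2_iff (w := w) h.1 h.2.1).1 h))

theorem ind2_ne {s f : K} (h : Ind2 w s f) : s ≠ 0 ∧ f ≠ 0 ∧ w.ord s = 0 ∧ w.ord f = 0 ∧ s ≠ f := by
  have h0 := h.2.2 (X 0) (X_ne_zero _)
  have h1 := h.2.2 (X 1) (X_ne_zero _)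
  have h2 := h.2.2 (X 0 - X 1) (by
    intro h
    have := congrArg (MvPolynomial.coeff (Finsupp.single 0 1)) h
    simp [MvPolynomial.coeff_X, Finsupp.single_left_inj] at this)
  simp only [aeval_X, map_sub, Matrix.cons_val_zero, Matrix.cons_val_one] at h0 h1 h2
  have hs0 : s ≠ 0 := fun h => h0 (Or.inl h)
  have hf0 : f ≠ 0 := fun h => h1 (Or.inl h)
  refine ⟨hs0, hf0, ?_, ?_, fun h => h2 (Or.inl (by rw [h, sub_self]))⟩
  · have h3 := h.1.resolve_left hs0
    have h4 : ¬ 0 < w.ord s := fun h => h0 (Or.inr h)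
    omega
  · have h3 := h.2.1.resolve_left hf0
    have h4 : ¬ 0 < w.ord f := fun h => h1 (Or.inr h)
    omega

theorem ind2_inv {s f : K} (h : Ind2 w s f) : Ind2 w s⁻¹ f := by
  obtain ⟨hs0, -, hs, -, -⟩ := ind2_ne h
  have hi : w.Reg s⁻¹ := w.reg_inv hs0 hs
  have h1 := (ind2_iff (w := w) h.1 h.2.1).1 h
  set a := res w ⟨s, h.1⟩ with ha
  set b := res w ⟨f, h.2.1⟩ with hb
  have hmul : a * res w ⟨s⁻¹, hi⟩ = 1 := by
    rw [ha]
    change IsLocalRing.residue (VS w) _ * IsLocalRing.residue (VS w) _ = 1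
    rw [← map_mul]
    have : (⟨s, h.1⟩ : VS w) * ⟨s⁻¹, hi⟩ = 1 := Subtype.ext (mul_inv_cancel₀ hs0)
    rw [this, map_one]
  set c := res w ⟨s⁻¹, hi⟩ with hc
  have hac : a = c⁻¹ := eq_inv_of_mul_eq_one_left hmul
  rw [ind2_iff hi h.2.1]
  obtain ⟨x, hx, y, hy, hxy⟩ := exists_pair (S := {c, b}) h1
    (by
      rw [hac]
      exact (isAlgebraic_algebraMap
        (⟨c, Algebra.subset_adjoin (by simp)⟩ : Algebra.adjoin ℂ ({c, b} : Set (kap w)))).inv)
    (isAlgebraic_algebraMap
        (⟨b, Algebra.subset_adjoin (by simp)⟩ : Algebra.adjoin ℂ ({c, b} : Set (kap w))))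
  have hne := (pair_on.1 hxy).1
  rcases hx with rfl | hx <;> rcases hy with rfl | hy
  · exact absurd rfl hne
  · rw [Set.mem_singleton_iff] at hy
    rw [hy] at hxy
    exact hxy
  · rw [Set.mem_singleton_iff] at hx
    rw [hx] at hxy
    exact pair_symm hxy
  · rw [Set.mem_singleton_iff] at hx hy
    exact absurd (hx.trans hy.symm) hne

theorem ind2_ord {s f : K} (h : Ind2 w s f) (q : MvPolynomial (Fin 2) ℂ) (hq : q ≠ 0) :
    aeval ![s, f] q ≠ 0 ∧ w.ord (aeval ![s, f] q) = 0 := by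
  have h1 := h.2.2 q hq
  have h2 : w.Reg (aeval ![s, f] q) := by
    have h3 := aeval_coe (![⟨s, h.1⟩, ⟨f, h.2.1⟩] : Fin 2 → VS w) q
    rw [vec_eq (fun z : VS w => (z : K))] at h3
    change w.Reg (aeval ![s, f] q)
    rw [← h3]
    exact (aeval (![⟨s, h.1⟩, ⟨f, h.2.1⟩] : Fin 2 → VS w) q : VS w).2
  have h0 : aeval ![s, f] q ≠ 0 := fun h => h1 (Or.inl h)
  refine ⟨h0, ?_⟩
  have h3 := h2.resolve_left h0
  have h4 : ¬ 0 < w.ord (aeval ![s, f] q) := fun h => h1 (Or.inr h)
  omega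

end Pool.Agent.TH592.FL_IR
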