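import Mathlib
import Pool.Agent.H826R2.Wein.Cpl

/-! Job 98: functions with vanishing differential on a connected manifold are constant. -/

open scoped Topology ContDiff Manifold
open Set Metric Bundle Pool.Agent.Helper186 Pool.Agent.H826R2.Wein

noncomputable section

namespace Pool.Agent.TH592.JobWT

set_option linter.unusedSectionVars false

universe u

variable {E : Type u} [NormedAddCommGroup E] [NormedSpace ℝ E] [FiniteDimensional ℝ E]
  {P : Type*} [TopologicalSpace P] [ChartedSpace E P] [IsManifold 𝓘(ℝ, E) ∞ P]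

lemma isOpen_target (x : P) : IsOpen (extChartAt 𝓘(ℝ, E) x).target :=
  isOpen_extChartAt_target x

/-- the inverse chart is differentiable in the target -/
lemma hasMFDerivAt_symm (x : P) {q : E} (hq : q ∈ (extChartAt 𝓘(ℝ, E) x).target) :
    HasMFDerivAt 𝓘(ℝ, E) 𝓘(ℝ, E) (extChartAt 𝓘(ℝ, E) x).symm q
      (mfderiv 𝓘(ℝ, E) 𝓘(ℝ, E) (extChartAt 𝓘(ℝ, E) x).symm q) := by
  have h1 : ContMDiffOn 𝓘(ℝ, E) 𝓘(ℝ, E) ∞ (extChartAt 𝓘(ℝ, E) x).symm
      (extChartAt 𝓘(ℝ, E) x).target := contMDiffOn_extChartAt_symm x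
  have h2 := (h1 q hq).contMDiffAt ((isOpen_target x).mem_nhds hq)
  exact (h2.mdifferentiableAt (by simp)).hasMFDerivAt

/-- the derivative in a chart -/
lemma hasFDerivAt_comp_symm (x : P) {f : P → ℝ} {q : E}
    (hq : q ∈ (extChartAt 𝓘(ℝ, E) x).target)
    (hf : MDifferentiableAt 𝓘(ℝ, E) 𝓘(ℝ, ℝ) f ((extChartAt 𝓘(ℝ, E) x).symm q)) :
    HasFDerivAt (𝕜 := ℝ) (E := E) (F := ℝ) (fun q => f ((extChartAt 𝓘(ℝ, E) x).symm q))
      ((dForm 𝓘(ℝ, E) f ((extChartAt 𝓘(ℝ, E) x).symm q)).comp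
        (mfderiv 𝓘(ℝ, E) 𝓘(ℝ, E) (extChartAt 𝓘(ℝ, E) x).symm q)) q := by
  have h1 := hf.hasMFDerivAt.comp q (hasMFDerivAt_symm x hq)
  exact hasMFDerivAt_iff_hasFDerivAt.mp h1

/-- Functions with vanishing differential on a connected manifold are constant. -/
theorem const_of_dForm_zero [ConnectedSpace P] {f : P → ℝ}
    (hf : ContMDiff 𝓘(ℝ, E) 𝓘(ℝ, ℝ) ∞ f) (h : ∀ x, dForm 𝓘(ℝ, E) f x = 0) (x y : P) :
    f x = f y := by
  have hl : IsLocallyConstant f := by
    rw [IsLocallyConstant.iff_eventually_eq]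
    intro x
    set φ := extChartAt 𝓘(ℝ, E) x with hφ
    have hx : φ x ∈ φ.target := mem_extChartAt_target x
    obtain ⟨r, hr, hB⟩ := Metric.isOpen_iff.mp (isOpen_target x) (φ x) hx
    have hd : ∀ q ∈ ball (φ x) r, HasFDerivAt (𝕜 := ℝ) (E := E) (F := ℝ)
        (fun q => f (φ.symm q)) (0 : E →L[ℝ] ℝ) q := by
      intro q hq
      have h1 := hasFDerivAt_comp_symm x (hB hq) (hf.mdifferentiableAt (by simp))
      rw [h] at h1
      exact h1.congr_fderiv (ContinuousLinearMap.ext fun v => rfl)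
    have hconst : ∀ q ∈ ball (φ x) r, f (φ.symm q) = f (φ.symm (φ x)) := by
      intro q hq
      refine isOpen_ball.is_const_of_fderiv_eq_zero (𝕜 := ℝ) (f := fun q => f (φ.symm q))
        (convex_ball (φ x) r).isPreconnected
        (fun z hz => (hd z hz).differentiableAt.differentiableWithinAt)
        (fun z hz => (hd z hz).fderiv) hq (mem_ball_self hr)
    have hc : ContinuousAt φ x := continuousAt_extChartAt x
    have h2 : ∀ᶠ y in 𝓝 x, φ y ∈ ball (φ x) r := hc (ball_mem_nhds _ hr)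
    have h3 : ∀ᶠ y in 𝓝 x, y ∈ φ.source := extChartAt_source_mem_nhds x
    filter_upwards [h2, h3] with y hy hys
    have h4 := hconst (φ y) hy
    rw [φ.left_inv hys, φ.left_inv (mem_extChartAt_source x)] at h4
    exact h4
  exact hl.apply_eq_of_preconnectedSpace x y

end Pool.Agent.TH592.JobWT
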