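import Mathlib
import Pool.Agent.H826R2.Wein.Cpl
import Pool.Agent.TH592.J98
import Pool.Agent.TH596.J72

/-! Job 96: manifold versions of the theorems of job 72. -/

open scoped Topology ContDiff Manifold
open Set Metric Bundle Pool.Agent.Helper186 Pool.Agent.H826R2.Wein

noncomputable section

namespace Pool.Agent.TH592.JobWT

set_option linter.unusedSectionVars false

universe u

variable {E : Type u} [NormedAddCommGroup E] [NormedSpace ℝ E] [FiniteDimensional ℝ E]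
  {P : Type*} [TopologicalSpace P] [ChartedSpace E P] [IsManifold 𝓘(ℝ, E) ∞ P]

lemma contDiffOn_chart3 {κ : P → Fin 3 → ℝ}
    (hκ : ∀ i, ContMDiff 𝓘(ℝ, E) 𝓘(ℝ, ℝ) ∞ (fun x => κ x i)) (x : P) :
    ContDiffOn ℝ ∞ (fun q : E => κ ((extChartAt 𝓘(ℝ, E) x).symm q))
      (extChartAt 𝓘(ℝ, E) x).target := by
  rw [contDiffOn_pi]
  intro i
  have h1 : ContMDiffOn 𝓘(ℝ, E) 𝓘(ℝ, ℝ) ∞ (fun q => κ ((extChartAt 𝓘(ℝ, E) x).symm q) i)
      (extChartAt 𝓘(ℝ, E) x).target :=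
    (hκ i).comp_contMDiffOn (contMDiffOn_extChartAt_symm x)
  exact contMDiffOn_iff_contDiffOn.mp h1

lemma chart_deriv3 {κ : P → Fin 3 → ℝ}
    (hκ : ∀ i, ContMDiff 𝓘(ℝ, E) 𝓘(ℝ, ℝ) ∞ (fun x => κ x i)) (x : P)
    (u : TangentSpace 𝓘(ℝ, E) x) (i : Fin 3) :
    fderiv ℝ (fun q : E => κ ((extChartAt 𝓘(ℝ, E) x).symm q)) (extChartAt 𝓘(ℝ, E) x x)
      (show E from u) i = dForm 𝓘(ℝ, E) (fun z => κ z i) x u := by
  have h1 : DifferentiableAt ℝ (fun q : E => κ ((extChartAt 𝓘(ℝ, E) x).symm q))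
      (extChartAt 𝓘(ℝ, E) x x) :=
    ((contDiffOn_chart3 hκ x).contDiffAt ((isOpen_target x).mem_nhds
      (mem_extChartAt_target x))).differentiableAt (by simp)
  rw [← Pool.Agent.TH596.J72.fderiv_coord h1 i]
  exact (mfderiv_eq_fderiv_chart (I := 𝓘(ℝ, E)) (g := fun z => κ z i) (x₀ := x)
    ((hκ i).mdifferentiableAt (by simp)) u).symm

/-- Normal form of a map of rank one on a manifold. -/
theorem nf_manifold {κ c : P → Fin 3 → ℝ}
    (hκ : ∀ i, ContMDiff 𝓘(ℝ, E) 𝓘(ℝ, ℝ) ∞ (fun x => κ x i)) {x : P} {l : Fin 3} {O : Set P}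
    (hO : IsOpen O) (hx : x ∈ O)
    (hc : ∀ y ∈ O, ∀ (u : TangentSpace 𝓘(ℝ, E) y) (i : Fin 3),
      dForm 𝓘(ℝ, E) (fun z => κ z i) y u = dForm 𝓘(ℝ, E) (fun z => κ z l) y u * c y i)
    (hne : dForm 𝓘(ℝ, E) (fun z => κ z l) x ≠ 0) :
    ∃ ε > (0:ℝ), ∃ g : ℝ → Fin 3 → ℝ, ContDiffOn ℝ ∞ g (Ioo (κ x l - ε) (κ x l + ε)) ∧
      ∀ᶠ y in 𝓝 x, y ∈ O ∧ κ y l ∈ Ioo (κ x l - ε) (κ x l + ε) ∧ κ y = g (κ y l) ∧
        c y = deriv g (κ y l) := by
  set φ := extChartAt 𝓘(ℝ, E) x with hφ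
  have hopen : IsOpen φ.target := isOpen_target x
  have hcs : ContinuousOn φ.symm φ.target := continuousOn_extChartAt_symm x
  have hO' : IsOpen (φ.target ∩ φ.symm ⁻¹' O) := hcs.isOpen_inter_preimage hopen hO
  have hxs : φ.symm (φ x) = x := φ.left_inv (mem_extChartAt_source x)
  have hx' : φ x ∈ φ.target ∩ φ.symm ⁻¹' O := by
    refine ⟨mem_extChartAt_target x, ?_⟩
    change φ.symm (φ x) ∈ O
    rw [hxs]
    exact hx
  have hf : ContDiffOn ℝ ∞ (fun q : E => κ (φ.symm q)) (φ.target ∩ φ.symm ⁻¹' O) :=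
    (contDiffOn_chart3 hκ x).mono inter_subset_left
  have hder : ∀ q ∈ φ.target, ∀ (u : E) (i : Fin 3),
      fderiv ℝ (fun q : E => κ (φ.symm q)) q u i =
        dForm 𝓘(ℝ, E) (fun z => κ z i) (φ.symm q)
          (mfderiv 𝓘(ℝ, E) 𝓘(ℝ, E) φ.symm q u) := by
    intro q hq u i
    have h1 : DifferentiableAt ℝ (fun q : E => κ (φ.symm q)) q :=
      ((contDiffOn_chart3 hκ x).contDiffAt (hopen.mem_nhds hq)).differentiableAt (by simp)
    rw [← Pool.Agent.TH596.J72.fderiv_coord h1 i]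
    let D : E →L[ℝ] ℝ := (dForm 𝓘(ℝ, E) (fun z => κ z i) (φ.symm q)).comp
      (mfderiv 𝓘(ℝ, E) 𝓘(ℝ, E) φ.symm q)
    have h2 : HasFDerivAt (𝕜 := ℝ) (E := E) (F := ℝ) (fun q => κ (φ.symm q) i) D q :=
      hasFDerivAt_comp_symm x (f := fun z => κ z i) hq ((hκ i).mdifferentiableAt (by simp))
    rw [h2.fderiv]
    rfl
  obtain ⟨ε, hε, g, hg, hev⟩ := Pool.Agent.TH596.J72.normal_form (f := fun q : E => κ (φ.symm q))
    (c := fun q => c (φ.symm q)) (x := φ x) (l := l) hO' hx' hf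
    (by
      rintro q ⟨hq, hqO⟩ u
      funext i
      rw [Pi.smul_apply, smul_eq_mul, hder q hq, hder q hq]
      exact hc _ hqO _ i)
    (by
      by_contra hcon
      push Not at hcon
      apply hne
      apply ContinuousLinearMap.ext
      intro u
      have h1 := chart_deriv3 hκ x u l
      rw [← h1]
      exact hcon _)
  have hκx : κ (φ.symm (φ x)) = κ x := congrArg κ hxs
  rw [hκx] at hg hev
  refine ⟨ε, hε, g, hg, ?_⟩
  have hcont : ContinuousAt φ x := continuousAt_extChartAt x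
  have h2 := hcont.eventually hev
  have h3 : ∀ᶠ y in 𝓝 x, y ∈ φ.source := extChartAt_source_mem_nhds x
  filter_upwards [h2, h3] with y hy hys
  obtain ⟨⟨-, hyO⟩, hy1, hy2, hy3⟩ := hy
  have hl : φ.symm (φ y) = y := φ.left_inv hys
  change φ.symm (φ y) ∈ O at hyO
  rw [hl] at hyO hy1 hy2 hy3
  exact ⟨hyO, hy1, hy2, hy3⟩

/-- If the values of the differential of a map to three-space and the value of the map are linearly
independent at one point, then the map attains a rational direction. -/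
theorem rational_direction_manifold {κ : P → Fin 3 → ℝ}
    (hκ : ∀ i, ContMDiff 𝓘(ℝ, E) 𝓘(ℝ, ℝ) ∞ (fun x => κ x i)) {x : P}
    (u v : TangentSpace 𝓘(ℝ, E) x)
    (h : crossProduct (fun i => dForm 𝓘(ℝ, E) (fun z => κ z i) x u)
      (fun i => dForm 𝓘(ℝ, E) (fun z => κ z i) x v) ⬝ᵥ κ x ≠ 0) :
    ∃ (y : P) (k : Fin 3 → ℤ), k ≠ 0 ∧ ∃ t : ℝ, κ y = t • (fun i => (k i : ℝ)) := by
  set φ := extChartAt 𝓘(ℝ, E) x with hφ
  have hxs : φ.symm (φ x) = x := φ.left_inv (mem_extChartAt_source x)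
  have hf : ContDiffAt ℝ ∞ (fun q : E => κ (φ.symm q)) (φ x) :=
    (contDiffOn_chart3 hκ x).contDiffAt ((isOpen_target x).mem_nhds (mem_extChartAt_target x))
  have e1 : ∀ w : TangentSpace 𝓘(ℝ, E) x,
      fderiv ℝ (fun q : E => κ (φ.symm q)) (φ x) (show E from w) =
        fun i => dForm 𝓘(ℝ, E) (fun z => κ z i) x w := by
    intro w
    funext i
    exact chart_deriv3 hκ x w i
  obtain ⟨q, -, k, hk, t, ht⟩ := Pool.Agent.TH596.J72.exists_rational_direction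
    (f := fun q : E => κ (φ.symm q)) (x := φ x) (hf.of_le (by simp)) (u := (show E from u))
    (v := (show E from v)) (by
      rw [e1 u, e1 v]
      have hκx : κ (φ.symm (φ x)) = κ x := congrArg κ hxs
      rw [hκx]
      exact h) (O := univ) Filter.univ_mem
  exact ⟨φ.symm q, k, hk, t, ht⟩

end Pool.Agent.TH592.JobWT
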