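import Mathlib
import Pool.Agent.H826R2.Wein.Cpl

/-! Job 97: smooth maps with surjective derivative are open at the point. -/

open scoped Topology ContDiff Manifold
open Set Metric Bundle Pool.Agent.Helper186 Pool.Agent.H826R2.Wein

noncomputable section

namespace Pool.Agent.TH592.JobWT

set_option linter.unusedSectionVars false

universe u

variable {E : Type u} [NormedAddCommGroup E] [NormedSpace ℝ E] [FiniteDimensional ℝ E]
  {P : Type*} [TopologicalSpace P] [ChartedSpace E P] [IsManifold 𝓘(ℝ, E) ∞ P]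

/-- Submersions are open at the point. -/
theorem map_nhds_of_surj {E' : Type*} [NormedAddCommGroup E'] [NormedSpace ℝ E']
    [FiniteDimensional ℝ E'] {Ψ : E' → P} {p : E'} (hΨ : ContMDiffAt 𝓘(ℝ, E') 𝓘(ℝ, E) ∞ Ψ p)
    (hs : Function.Surjective (fun v : E' => (mfderiv 𝓘(ℝ, E') 𝓘(ℝ, E) Ψ p v : E))) :
    Filter.map Ψ (𝓝 p) = 𝓝 (Ψ p) := by
  set φ := extChartAt 𝓘(ℝ, E) (Ψ p) with hφ
  have hcont : ContinuousAt Ψ p := hΨ.continuousAt
  -- the map in the chart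
  have hg : ContMDiffAt 𝓘(ℝ, E') 𝓘(ℝ, E) ∞ (fun z => φ (Ψ z)) p :=
    (contMDiffAt_extChartAt (I := 𝓘(ℝ, E)) (n := ∞) (x := Ψ p)).comp p hΨ
  have hg' : ContDiffAt ℝ ∞ (fun z => φ (Ψ z)) p := contMDiffAt_iff_contDiffAt.mp hg
  have hst := hg'.hasStrictFDerivAt (by simp)
  have hφd : HasMFDerivAt 𝓘(ℝ, E) 𝓘(ℝ, E) φ (Ψ p) (mfderiv 𝓘(ℝ, E) 𝓘(ℝ, E) φ (Ψ p)) :=
    ((contMDiffAt_extChartAt (I := 𝓘(ℝ, E)) (n := ∞) (x := Ψ p)).mdifferentiableAt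
      (by simp)).hasMFDerivAt
  have hΨd := (hΨ.mdifferentiableAt (by simp)).hasMFDerivAt
  let D1 : E →L[ℝ] E := mfderiv 𝓘(ℝ, E) 𝓘(ℝ, E) φ (Ψ p)
  let D2 : E' →L[ℝ] E := mfderiv 𝓘(ℝ, E') 𝓘(ℝ, E) Ψ p
  have hcomp : HasFDerivAt (𝕜 := ℝ) (E := E') (F := E) (fun z => φ (Ψ z)) (D1.comp D2) p :=
    hasMFDerivAt_iff_hasFDerivAt.mp (hφd.comp p hΨd)
  have heq : fderiv ℝ (fun z => φ (Ψ z)) p = D1.comp D2 := hcomp.fderiv
  have hinv : Function.Surjective (fun v : E => (mfderiv 𝓘(ℝ, E) 𝓘(ℝ, E) φ (Ψ p) v : E)) := by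
    have hi := isInvertible_mfderiv_extChartAt (I := 𝓘(ℝ, E)) (x := Ψ p) (y := Ψ p)
      (mem_extChartAt_source (Ψ p))
    obtain ⟨e, he⟩ := hi
    intro w
    refine ⟨e.symm w, ?_⟩
    change (mfderiv 𝓘(ℝ, E) 𝓘(ℝ, E) φ (Ψ p)) (e.symm w) = w
    rw [hφ, ← he]
    exact e.apply_symm_apply w
  have hsurj : (fderiv ℝ (fun z => φ (Ψ z)) p).range = ⊤ := by
    rw [LinearMap.range_eq_top]
    intro w
    obtain ⟨v, hv⟩ := hinv w
    obtain ⟨u, hu⟩ := hs v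
    refine ⟨u, ?_⟩
    rw [heq]
    have hu' : D2 u = v := hu
    change D1 (D2 u) = w
    rw [hu']
    exact hv
  have hmap := hst.map_nhds_eq_of_surj hsurj
  -- back to the manifold
  have hsym : Filter.map φ.symm (𝓝 (φ (Ψ p))) = 𝓝 (Ψ p) := by
    rw [hφ, ← map_extChartAt_nhds_of_boundaryless (I := 𝓘(ℝ, E)) (Ψ p), Filter.map_map]
    conv_rhs => rw [← Filter.map_id (f := 𝓝 (Ψ p))]
    apply Filter.map_congr
    filter_upwards [extChartAt_source_mem_nhds (I := 𝓘(ℝ, E)) (Ψ p)] with z hz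
    exact (extChartAt 𝓘(ℝ, E) (Ψ p)).left_inv hz
  rw [← hsym, ← hmap, Filter.map_map]
  apply Filter.map_congr
  have h1 : ∀ᶠ z in 𝓝 p, Ψ z ∈ φ.source := hcont (extChartAt_source_mem_nhds (Ψ p))
  filter_upwards [h1] with z hz
  exact (φ.left_inv hz).symm

end Pool.Agent.TH592.JobWT
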