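import Mathlib
import Pool.Agent.H826R2.Wein.Cpl
import Pool.Agent.TH592.J98

/-! Job 99: nearby points are joined by short smooth paths. -/

open scoped Topology ContDiff Manifold
open Set Metric Bundle Pool.Agent.Helper186 Pool.Agent.H826R2.Wein

noncomputable section

namespace Pool.Agent.TH592.JobWT

set_option linter.unusedSectionVars false

universe u

variable {E : Type u} [NormedAddCommGroup E] [NormedSpace ℝ E] [FiniteDimensional ℝ E]
  {P : Type*} [TopologicalSpace P] [ChartedSpace E P] [IsManifold 𝓘(ℝ, E) ∞ P]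

/-- Nearby points are joined by short smooth paths. -/
theorem short_paths {n : ℕ} (ι : Imm (E := E) P n) (y₀ : P) {ε : ℝ} (hε : 0 < ε) :
    ∃ O ∈ 𝓝 y₀, ∀ y ∈ O, ∀ y' ∈ O, ∃ p : ℝ → P, p 0 = y ∧ p 1 = y' ∧
      ∀ σ ∈ Icc (0:ℝ) 1, ∃ v : TangentSpace 𝓘(ℝ, E) (p σ),
        HasMFDerivAt 𝓘(ℝ, ℝ) 𝓘(ℝ, E) p σ ((1 : ℝ →L[ℝ] ℝ).smulRight v) ∧
        ‖ι.D (p σ) v‖ ≤ ε := by
  set φ := extChartAt 𝓘(ℝ, E) y₀ with hφ
  let W := EuclideanSpace ℝ (Fin n)
  let Gm : E → W := fun q => ι.F (φ.symm q)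
  -- the immersion in the chart
  have hG : ContDiffOn ℝ ∞ Gm φ.target := by
    have h1 : ContMDiffOn 𝓘(ℝ, E) 𝓘(ℝ, W) ∞ (fun q => ι.F (φ.symm q)) φ.target :=
      ι.smooth.comp_contMDiffOn (contMDiffOn_extChartAt_symm y₀)
    exact contMDiffOn_iff_contDiffOn.mp h1
  have hx : φ y₀ ∈ φ.target := mem_extChartAt_target y₀
  have hopen : IsOpen φ.target := isOpen_target y₀
  have hcd : ContinuousAt (fderiv ℝ Gm) (φ y₀) :=
    (hG.continuousOn_fderiv_of_isOpen hopen (by simp)).continuousAt (hopen.mem_nhds hx)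
  set C : ℝ := ‖fderiv ℝ Gm (φ y₀)‖ + 1 with hC
  have hC0 : 0 < C := by positivity
  have hev : ∀ᶠ q in 𝓝 (φ y₀), ‖fderiv ℝ Gm q‖ < C := by
    have h1 : ContinuousAt (fun q => ‖fderiv ℝ Gm q‖) (φ y₀) := hcd.norm
    exact h1.eventually_lt continuousAt_const (by rw [hC]; linarith)
  obtain ⟨r₁, hr₁, hB₁⟩ := Metric.eventually_nhds_iff_ball.mp hev
  obtain ⟨r₂, hr₂, hB₂⟩ := Metric.isOpen_iff.mp hopen (φ y₀) hx
  set r : ℝ := min (min r₁ r₂) (ε / (2 * C)) with hr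
  have hr0 : 0 < r := lt_min (lt_min hr₁ hr₂) (by positivity)
  have hrε : C * (2 * r) ≤ ε := by
    have h1 : r ≤ ε / (2 * C) := min_le_right _ _
    rw [le_div_iff₀ (by positivity)] at h1
    linarith
  have hrB : ball (φ y₀) r ⊆ φ.target := fun q hq =>
    hB₂ (ball_subset_ball ((min_le_left _ _).trans (min_le_right _ _)) hq)
  have hrC : ∀ q ∈ ball (φ y₀) r, ‖fderiv ℝ Gm q‖ < C := fun q hq =>
    hB₁ q (ball_subset_ball ((min_le_left _ _).trans (min_le_left _ _)) hq)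
  have hc : ContinuousAt φ y₀ := continuousAt_extChartAt y₀
  refine ⟨φ ⁻¹' (ball (φ y₀) r) ∩ φ.source,
    Filter.inter_mem (hc (ball_mem_nhds _ hr0)) (extChartAt_source_mem_nhds y₀), ?_⟩
  rintro y ⟨hy, hys⟩ y' ⟨hy', hys'⟩
  let w : E := φ y' - φ y
  let a : ℝ → E := fun σ => φ y + σ • w
  have hw : ‖w‖ ≤ 2 * r := by
    have h1 : dist (φ y') (φ y) ≤ dist (φ y') (φ y₀) + dist (φ y) (φ y₀) :=
      dist_triangle_right _ _ _
    have h2 : dist (φ y') (φ y₀) < r := hy'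
    have h3 : dist (φ y) (φ y₀) < r := hy
    rw [dist_eq_norm] at h1
    change ‖φ y' - φ y‖ ≤ 2 * r
    linarith
  have ha : ∀ σ, HasFDerivAt a ((1 : ℝ →L[ℝ] ℝ).smulRight w) σ := by
    intro σ
    have h1 : a = fun t => φ y + ((1 : ℝ →L[ℝ] ℝ).smulRight w) t := by
      funext t
      simp [a]
    rw [h1]
    exact ((1 : ℝ →L[ℝ] ℝ).smulRight w).hasFDerivAt.const_add (φ y)
  refine ⟨fun σ => φ.symm (a σ), ?_, ?_, ?_⟩
  · have h1 : a 0 = φ y := by simp [a]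
    change φ.symm (a 0) = y
    rw [h1]
    exact φ.left_inv hys
  · have h1 : a 1 = φ y' := by simp [a, w]
    change φ.symm (a 1) = y'
    rw [h1]
    exact φ.left_inv hys'
  · intro σ hσ
    have hq : a σ ∈ ball (φ y₀) r := by
      have h1 := (convex_ball (φ y₀) r) hy hy' (by linarith [hσ.2] : (0 : ℝ) ≤ 1 - σ) hσ.1
        (by ring)
      have e : (1 - σ) • φ y + σ • φ y' = a σ := by
        change _ = φ y + σ • (φ y' - φ y)
        module
      rwa [e] at h1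
    let D1 : E →L[ℝ] E := mfderiv 𝓘(ℝ, E) 𝓘(ℝ, E) φ.symm (a σ)
    have hs := hasMFDerivAt_symm y₀ (hrB hq)
    refine ⟨D1 w, ?_, ?_⟩
    · have h1 := hs.comp σ (ha σ).hasMFDerivAt
      refine h1.congr_mfderiv ?_
      apply ContinuousLinearMap.ext
      intro t
      exact D1.map_smul (show ℝ from t) w
    · have hF : HasMFDerivAt 𝓘(ℝ, E) 𝓘(ℝ, W) ι.F (φ.symm (a σ)) (ι.D (φ.symm (a σ))) :=
        (ι.smooth.mdifferentiableAt (by simp)).hasMFDerivAt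
      let D2 : E →L[ℝ] W := ι.D (φ.symm (a σ))
      have h1 : HasFDerivAt (𝕜 := ℝ) (E := E) (F := W) Gm (D2.comp D1) (a σ) :=
        hasMFDerivAt_iff_hasFDerivAt.mp (hF.comp (a σ) hs)
      change ‖D2 (D1 w)‖ ≤ ε
      have h2 : D2 (D1 w) = fderiv ℝ Gm (a σ) w := by rw [h1.fderiv]; rfl
      rw [h2]
      calc ‖fderiv ℝ Gm (a σ) w‖ ≤ ‖fderiv ℝ Gm (a σ)‖ * ‖w‖ :=
            (fderiv ℝ Gm (a σ)).le_opNorm w
        _ ≤ C * (2 * r) := mul_le_mul (hrC _ hq).le hw (norm_nonneg _) hC0.le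
        _ ≤ ε := hrε

end Pool.Agent.TH592.JobWT
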