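import Pool.Agent.TH281.DW.Stmts

/-!
# Cut-off on the 2-torus with summable Fourier coefficients (job 2104, TaskCut)
-/

set_option autoImplicit false

open MeasureTheory Complex Filter Topology Set
open scoped ENNReal Real

namespace Pool.Agent.TH592.J2104

noncomputable section

/-- tent function on the circle -/
def ten (h : ℝ) (t : UnitAddCircle) : ℝ := max 0 (h - ‖t‖)

lemma ten_cont (h : ℝ) : Continuous (ten h) := by
  unfold ten; fun_prop

lemma ten_nonneg (h : ℝ) (t : UnitAddCircle) : 0 ≤ ten h t := le_max_left _ _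

lemma ten_le {h : ℝ} (h1 : h ≤ 1) (t : UnitAddCircle) : ten h t ≤ 1 := by
  unfold ten
  exact max_le zero_le_one (by linarith [norm_nonneg t])

lemma ten_zero {h : ℝ} {t : UnitAddCircle} (ht : h ≤ ‖t‖) : ten h t = 0 := by
  unfold ten; exact max_eq_left (by linarith)

lemma ten_pos {h : ℝ} (h0 : 0 < h) : 0 < ten h 0 := by
  unfold ten; simp [h0]

lemma int_cos (w h : ℝ) (hw : w ≠ 0) :
    ∫ s in (0 : ℝ)..h, (h - s) * Real.cos (w * s) = (1 - Real.cos (w * h)) / w ^ 2 := by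
  have hd : ∀ s ∈ uIcc (0 : ℝ) h, HasDerivAt
      (fun s => (h - s) * (Real.sin (w * s) / w) - Real.cos (w * s) / w ^ 2)
      ((h - s) * Real.cos (w * s)) s := by
    intro s _
    have e0 : HasDerivAt (fun s : ℝ => w * s) w s := by
      simpa using (hasDerivAt_id s).const_mul w
    have e1 : HasDerivAt (fun s : ℝ => Real.sin (w * s) / w) (Real.cos (w * s) * w / w) s :=
      (e0.sin).div_const w
    have e2 : HasDerivAt (fun s : ℝ => Real.cos (w * s) / w ^ 2)
        (-Real.sin (w * s) * w / w ^ 2) s := (e0.cos).div_const _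
    have e3 : HasDerivAt (fun s : ℝ => h - s) (-1) s := by
      simpa using (hasDerivAt_id s).const_sub h
    have e4 := (e3.mul e1).sub e2
    have e5 : (h - s) * Real.cos (w * s) =
        (-1) * (Real.sin (w * s) / w) + (h - s) * (Real.cos (w * s) * w / w) -
          (-Real.sin (w * s) * w / w ^ 2) := by
      field_simp
      ring
    rw [e5]
    exact e4
  rw [intervalIntegral.integral_eq_sub_of_hasDerivAt hd
    (Continuous.intervalIntegrable (by fun_prop) _ _)]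
  simp
  ring

/-- The Fourier coefficients of the tent function. -/
lemma coef (h : ℝ) (h0 : 0 < h) (h1 : h ≤ 1 / 2) (n : ℤ) :
    ∫ t : UnitAddCircle, ((ten h t : ℝ) : ℂ) * fourier n t ∂AddCircle.haarAddCircle =
      ((2 * ∫ s in (0 : ℝ)..h, (h - s) * Real.cos (2 * π * n * s) : ℝ) : ℂ) := by
  have e1 : ∫ t : UnitAddCircle, ((ten h t : ℝ) : ℂ) * fourier n t ∂AddCircle.haarAddCircle =
      fourierCoeff (fun t : UnitAddCircle => ((ten h t : ℝ) : ℂ)) (-n) := by
    unfold fourierCoeff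
    simp only [neg_neg, smul_eq_mul]
    exact integral_congr_ae (Eventually.of_forall fun t => mul_comm _ _)
  rw [e1, fourierCoeff_eq_intervalIntegral _ _ (-(1 / 2))]
  have e2 : ∀ x ∈ uIcc (-(1 / 2) : ℝ) (-(1 / 2) + 1),
      fourier (-(-n)) (x : UnitAddCircle) • ((ten h (x : UnitAddCircle) : ℝ) : ℂ) =
        ((max 0 (h - |x|) : ℝ) : ℂ) * cexp (2 * π * I * n * x) := by
    intro x hx
    rw [uIcc_of_le (by norm_num)] at hx
    have hn : ‖(x : UnitAddCircle)‖ = |x| := by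
      rw [AddCircle.norm_coe_eq_abs_iff _ one_ne_zero, abs_one, abs_le]
      constructor <;> linarith [hx.1, hx.2]
    rw [neg_neg, smul_eq_mul, mul_comm, ten, hn, fourier_coe_apply]
    congr 2
    push_cast; ring
  rw [intervalIntegral.integral_congr e2]
  have hc1 : Continuous fun x : ℝ => ((max 0 (h - |x|) : ℝ) : ℂ) * cexp (2 * π * I * n * x) := by
    fun_prop
  have e3 : (-(1 / 2) + 1 : ℝ) = 1 / 2 := by norm_num
  rw [e3, ← intervalIntegral.integral_add_adjacent_intervals (b := 0)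
    (hc1.intervalIntegrable _ _) (hc1.intervalIntegrable _ _)]
  have e4 : ∫ x in (-(1 / 2) : ℝ)..0, ((max 0 (h - |x|) : ℝ) : ℂ) * cexp (2 * π * I * n * x) =
      ∫ x in (0 : ℝ)..(1 / 2), ((max 0 (h - |x|) : ℝ) : ℂ) * cexp (-(2 * π * I * n * x)) := by
    have := intervalIntegral.integral_comp_neg (a := 0) (b := 1 / 2)
      (fun x : ℝ => ((max 0 (h - |x|) : ℝ) : ℂ) * cexp (2 * π * I * n * x))
    rw [neg_zero] at this
    rw [← this]
    refine intervalIntegral.integral_congr fun x _ => ?_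
    simp only [abs_neg]
    congr 2
    push_cast; ring
  have hc2 : Continuous fun x : ℝ =>
      ((max 0 (h - |x|) : ℝ) : ℂ) * cexp (-(2 * π * I * n * x)) := by
    fun_prop
  rw [e4, ← intervalIntegral.integral_add (hc2.intervalIntegrable _ _)
    (hc1.intervalIntegrable _ _)]
  have e5 : ∀ x : ℝ, ((max 0 (h - |x|) : ℝ) : ℂ) * cexp (-(2 * π * I * n * x)) +
      ((max 0 (h - |x|) : ℝ) : ℂ) * cexp (2 * π * I * n * x) =
      ((2 * (max 0 (h - |x|) * Real.cos (2 * π * n * x)) : ℝ) : ℂ) := by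
    intro x
    push_cast
    have := Complex.two_cos (2 * π * n * x)
    rw [show (2 * (((max 0 (h - |x|) : ℝ) : ℂ) * Complex.cos (2 * π * n * x))) =
      ((max 0 (h - |x|) : ℝ) : ℂ) * (2 * Complex.cos (2 * π * n * x)) by ring, this]
    rw [show 2 * (π : ℂ) * n * x * I = 2 * π * I * n * x by ring,
      show -(2 * (π : ℂ) * n * x) * I = -(2 * π * I * n * x) by ring]
    ring
  simp only [e5]
  rw [intervalIntegral.integral_ofReal, intervalIntegral.integral_const_mul]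
  have e6 : ∫ x in (0 : ℝ)..(1 / 2), max 0 (h - |x|) * Real.cos (2 * π * n * x) =
      ∫ x in (0 : ℝ)..h, (h - x) * Real.cos (2 * π * n * x) := by
    have hc3 : Continuous fun x : ℝ => max 0 (h - |x|) * Real.cos (2 * π * n * x) := by
      fun_prop
    rw [← intervalIntegral.integral_add_adjacent_intervals (b := h)
      (hc3.intervalIntegrable _ _) (hc3.intervalIntegrable _ _)]
    have z1 : ∫ x in h..(1 / 2), max 0 (h - |x|) * Real.cos (2 * π * n * x) = 0 := by
      rw [intervalIntegral.integral_congr (g := fun _ => (0 : ℝ)), intervalIntegral.integral_zero]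
      intro x hx
      rw [uIcc_of_le h1] at hx
      have : h - |x| ≤ 0 := by rw [abs_of_nonneg (h0.le.trans hx.1)]; linarith [hx.1]
      simp only [max_eq_left this, zero_mul]
    rw [z1, add_zero]
    refine intervalIntegral.integral_congr fun x hx => ?_
    rw [uIcc_of_le h0.le] at hx
    have : max 0 (h - |x|) = h - x := by
      rw [abs_of_nonneg hx.1]; exact max_eq_right (by linarith [hx.2])
    simp only [this]
  rw [e6]
  simp

lemma coef_le (h : ℝ) (h0 : 0 < h) (h1 : h ≤ 1 / 2) (n : ℤ) :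
    ‖∫ t : UnitAddCircle, ((ten h t : ℝ) : ℂ) * fourier n t ∂AddCircle.haarAddCircle‖ ≤
      1 / (1 + (n : ℝ) ^ 2) := by
  rw [coef h h0 h1 n, Complex.norm_real, Real.norm_eq_abs]
  by_cases hn : n = 0
  · subst hn
    have : ∫ s in (0 : ℝ)..h, (h - s) * Real.cos (2 * π * (0 : ℤ) * s) = h ^ 2 / 2 := by
      simp only [Int.cast_zero, mul_zero, zero_mul, Real.cos_zero, mul_one]
      rw [intervalIntegral.integral_sub (by simp) (by simp)]
      simp
      ring
    rw [this]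
    rw [abs_of_nonneg (by positivity)]
    norm_num
    nlinarith
  · have hn' : (n : ℝ) ≠ 0 := by exact_mod_cast hn
    have hw : 2 * π * (n : ℝ) ≠ 0 := by positivity
    rw [int_cos _ _ hw]
    have hn2 : (1 : ℝ) ≤ (n : ℝ) ^ 2 := by
      have : (1 : ℤ) ≤ n ^ 2 := by
        have := Int.one_le_abs hn
        nlinarith [sq_abs n]
      exact_mod_cast this
    have hc1 := Real.neg_one_le_cos (2 * π * (n : ℝ) * h)
    have hc2 := Real.cos_le_one (2 * π * (n : ℝ) * h)
    rw [abs_of_nonneg (by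
      apply mul_nonneg zero_le_two
      apply div_nonneg (by linarith) (by positivity))]
    rw [mul_div_assoc', div_le_div_iff₀ (by positivity) (by positivity)]
    have hpi : (3 : ℝ) < π := Real.pi_gt_three
    have : (2 * π * (n : ℝ)) ^ 2 ≥ 36 * (n : ℝ) ^ 2 := by
      have : (2 * π * (n : ℝ)) ^ 2 = 4 * π ^ 2 * (n : ℝ) ^ 2 := by ring
      rw [this]
      have h9 : (9 : ℝ) ≤ π ^ 2 := by nlinarith
      have := mul_le_mul_of_nonneg_right h9 (sq_nonneg (n : ℝ))
      linarith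
    nlinarith [sq_nonneg (n : ℝ)]

lemma fourier_add' (n : ℤ) (s t : UnitAddCircle) :
    fourier n (s + t) = fourier n s * fourier n t := by
  simp [fourier_apply, AddCircle.toCircle_add]

lemma coef_shift (h : ℝ) (n : ℤ) (a : UnitAddCircle) :
    ‖∫ t : UnitAddCircle, ((ten h (t - a) : ℝ) : ℂ) * fourier n t ∂AddCircle.haarAddCircle‖ =
    ‖∫ t : UnitAddCircle, ((ten h t : ℝ) : ℂ) * fourier n t ∂AddCircle.haarAddCircle‖ := by
  have e1 := integral_sub_right_eq_self (μ := (AddCircle.haarAddCircle : Measure UnitAddCircle))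
    (fun t : UnitAddCircle => ((ten h t : ℝ) : ℂ) * fourier n (t + a)) a
  simp only [sub_add_cancel] at e1
  rw [e1]
  simp only [fourier_add', ← mul_assoc]
  rw [integral_mul_const, norm_mul]
  have : ‖fourier n a‖ = 1 := by rw [fourier_apply]; exact Circle.norm_coe _
  rw [this, mul_one]

/-! ### sums -/

lemma sum_nat (m : ℕ) (hm : 1 ≤ m) (N : ℕ) (hN : m ≤ N) :
    ∑ k ∈ Finset.Ico m N, 1 / (1 + (k : ℝ) ^ 2) ≤ 1 / ((m : ℝ) - 1 / 2) - 1 / ((N : ℝ) - 1 / 2) := by
  induction N, hN using Nat.le_induction with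
  | base => simp
  | succ N hN ih =>
    rw [Finset.sum_Ico_succ_top hN]
    have hN1 : (1 : ℝ) ≤ N := by exact_mod_cast hm.trans hN
    have : 1 / (1 + (N : ℝ) ^ 2) ≤ 1 / ((N : ℝ) - 1 / 2) - 1 / (((N + 1 : ℕ) : ℝ) - 1 / 2) := by
      push_cast
      rw [div_sub_div _ _ (by linarith) (by linarith), div_le_div_iff₀ (by positivity)
        (mul_pos (by linarith) (by linarith))]
      nlinarith
    linarith

lemma sum_nat' (m : ℕ) (hm : 1 ≤ m) (A : Finset ℕ) (hA : ∀ k ∈ A, m ≤ k) :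
    ∑ k ∈ A, 1 / (1 + (k : ℝ) ^ 2) ≤ 1 / ((m : ℝ) - 1 / 2) := by
  set N := max m (A.sup id + 1) with hN
  have h1 : A ⊆ Finset.Ico m N := by
    intro k hk
    rw [Finset.mem_Ico]
    refine ⟨hA k hk, ?_⟩
    have : k ≤ A.sup id := Finset.le_sup (f := id) hk
    omega
  refine (Finset.sum_le_sum_of_subset_of_nonneg h1 fun _ _ _ => by positivity).trans ?_
  refine (sum_nat m hm N (le_max_left _ _)).trans ?_
  have : (1 : ℝ) ≤ N := by
    have : 1 ≤ N := hm.trans (le_max_left _ _)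
    exact_mod_cast this
  have : 0 ≤ 1 / ((N : ℝ) - 1 / 2) := by
    apply div_nonneg zero_le_one; linarith
  linarith

lemma sum_int (m : ℕ) (hm : 1 ≤ m) (A : Finset ℤ) (hA : ∀ k ∈ A, m ≤ k.natAbs) :
    ∑ k ∈ A, 1 / (1 + (k : ℝ) ^ 2) ≤ 2 / ((m : ℝ) - 1 / 2) := by
  classical
  have key : ∀ B : Finset ℤ, (∀ k ∈ B, m ≤ k.natAbs) →
      (∀ k ∈ B, ∀ l ∈ B, k.natAbs = l.natAbs → k = l) →
      ∑ k ∈ B, 1 / (1 + (k : ℝ) ^ 2) ≤ 1 / ((m : ℝ) - 1 / 2) := by
    intro B hB hinj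
    have e1 : ∑ k ∈ B, 1 / (1 + (k : ℝ) ^ 2) =
        ∑ k ∈ B.image Int.natAbs, 1 / (1 + (k : ℝ) ^ 2) := by
      rw [Finset.sum_image (fun k hk l hl h => hinj k hk l hl h)]
      refine Finset.sum_congr rfl fun k _ => ?_
      have : ((k.natAbs : ℕ) : ℝ) ^ 2 = (k : ℝ) ^ 2 := by
        rw [Nat.cast_natAbs, Int.cast_abs, sq_abs]
      rw [this]
    rw [e1]
    refine sum_nat' m hm _ fun k hk => ?_
    obtain ⟨l, hl, rfl⟩ := Finset.mem_image.1 hk
    exact hB l hl
  rw [← Finset.sum_filter_add_sum_filter_not A (fun k => 0 ≤ k)]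
  have k1 := key (A.filter fun k => 0 ≤ k) (fun k hk => hA k (Finset.mem_filter.1 hk).1) (by
    intro k hk l hl h
    have := (Finset.mem_filter.1 hk).2
    have := (Finset.mem_filter.1 hl).2
    omega)
  have k2 := key (A.filter fun k => ¬ 0 ≤ k) (fun k hk => hA k (Finset.mem_filter.1 hk).1) (by
    intro k hk l hl h
    have := (Finset.mem_filter.1 hk).2
    have := (Finset.mem_filter.1 hl).2
    omega)
  have : 2 / ((m : ℝ) - 1 / 2) = 1 / ((m : ℝ) - 1 / 2) + 1 / ((m : ℝ) - 1 / 2) := by ring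
  linarith

/-- tail sums over the integers -/
lemma sum_tail (L : ℝ) (hL : 1 ≤ L) (A : Finset ℤ) (hA : ∀ k ∈ A, L ^ 2 < 2 * (k : ℝ) ^ 2) :
    ∑ k ∈ A, 1 / (1 + (k : ℝ) ^ 2) ≤ 8 / L := by
  set m : ℕ := ⌈L / 2⌉₊ with hm
  have hm1 : 1 ≤ m := Nat.one_le_iff_ne_zero.2 (by
    rw [hm]; exact (Nat.ceil_pos.2 (by linarith)).ne')
  have h1 : ∀ k ∈ A, m ≤ k.natAbs := by
    intro k hk
    rw [hm, Nat.ceil_le, Nat.cast_natAbs, Int.cast_abs]
    have := hA k hk
    by_contra hc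
    push Not at hc
    have h2 : |(k : ℝ)| ^ 2 < (L / 2) ^ 2 := by
      apply pow_lt_pow_left₀ hc (abs_nonneg _) (by norm_num)
    rw [sq_abs] at h2
    nlinarith
  refine (sum_int m hm1 A h1).trans ?_
  have h3 : L / 2 ≤ m := Nat.le_ceil _
  have h4 : (1 : ℝ) ≤ m := by exact_mod_cast hm1
  rw [div_le_div_iff₀ (by linarith) (by linarith)]
  linarith

lemma sum_all (A : Finset ℤ) : ∑ k ∈ A, 1 / (1 + (k : ℝ) ^ 2) ≤ 5 := by
  classical
  rw [← Finset.sum_filter_add_sum_filter_not A (fun k => k = 0)]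
  have k1 : ∑ k ∈ A.filter (fun k => k = 0), 1 / (1 + (k : ℝ) ^ 2) ≤ 1 := by
    refine (Finset.sum_le_sum_of_subset_of_nonneg (t := {0}) ?_ fun _ _ _ => by positivity).trans ?_
    · intro k hk
      simpa using (Finset.mem_filter.1 hk).2
    · simp
  have k2 := sum_int 1 le_rfl (A.filter fun k => ¬ k = 0) (by
    intro k hk
    have := (Finset.mem_filter.1 hk).2
    omega)
  norm_num at k2 k1 ⊢
  linarith

lemma sum_two (G : Finset (Fin 2 → ℤ)) (A B : Finset ℤ) (hA : ∀ n ∈ G, n 0 ∈ A)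
    (hB : ∀ n ∈ G, n 1 ∈ B) (f : ℤ → ℝ) (hf : ∀ k, 0 ≤ f k) :
    ∑ n ∈ G, f (n 0) * f (n 1) ≤ (∑ k ∈ A, f k) * ∑ k ∈ B, f k := by
  classical
  rw [Finset.sum_mul_sum, ← Finset.sum_product']
  have e1 : ∑ n ∈ G, f (n 0) * f (n 1) =
      ∑ p ∈ G.image (fun n => (n 0, n 1)), f p.1 * f p.2 := by
    rw [Finset.sum_image]
    intro n _ n' _ h
    simp only [Prod.mk.injEq] at h
    funext i
    fin_cases i
    · exact h.1
    · exact h.2
  rw [e1]
  refine Finset.sum_le_sum_of_subset_of_nonneg ?_ fun _ _ _ => mul_nonneg (hf _) (hf _)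
  intro p hp
  obtain ⟨n, hn, rfl⟩ := Finset.mem_image.1 hp
  exact Finset.mem_product.2 ⟨hA n hn, hB n hn⟩

lemma sum_tail2 (L : ℝ) (hL : 1 ≤ L) (G : Finset (Fin 2 → ℤ))
    (hG : ∀ n ∈ G, L ^ 2 < 2 * (n 0 : ℝ) ^ 2) :
    ∑ n ∈ G, 1 / (1 + (n 0 : ℝ) ^ 2) * (1 / (1 + (n 1 : ℝ) ^ 2)) ≤ 8 / L * 5 := by
  classical
  have hf : ∀ k : ℤ, (0 : ℝ) ≤ 1 / (1 + (k : ℝ) ^ 2) := fun k => by positivity
  have p1 := sum_two G (G.image fun n => n 0) (G.image fun n => n 1)
    (fun n hn => Finset.mem_image_of_mem _ hn) (fun n hn => Finset.mem_image_of_mem _ hn)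
    (fun k => 1 / (1 + (k : ℝ) ^ 2)) hf
  have q1 := sum_tail L hL (G.image fun n => n 0) (by
    intro k hk
    obtain ⟨n, hn, rfl⟩ := Finset.mem_image.1 hk
    exact hG n hn)
  have r1 := sum_all (G.image fun n => n 1)
  have hL8 : (0 : ℝ) ≤ 8 / L := by positivity
  exact p1.trans (mul_le_mul q1 r1 (Finset.sum_nonneg fun k _ => hf k) hL8)

lemma sum_tail3 (L : ℝ) (hL : 1 ≤ L) (G : Finset (Fin 2 → ℤ))
    (hG : ∀ n ∈ G, L ^ 2 < 2 * (n 1 : ℝ) ^ 2) :
    ∑ n ∈ G, 1 / (1 + (n 0 : ℝ) ^ 2) * (1 / (1 + (n 1 : ℝ) ^ 2)) ≤ 5 * (8 / L) := by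
  classical
  have hf : ∀ k : ℤ, (0 : ℝ) ≤ 1 / (1 + (k : ℝ) ^ 2) := fun k => by positivity
  have p1 := sum_two G (G.image fun n => n 0) (G.image fun n => n 1)
    (fun n hn => Finset.mem_image_of_mem _ hn) (fun n hn => Finset.mem_image_of_mem _ hn)
    (fun k => 1 / (1 + (k : ℝ) ^ 2)) hf
  have q1 := sum_tail L hL (G.image fun n => n 1) (by
    intro k hk
    obtain ⟨n, hn, rfl⟩ := Finset.mem_image.1 hk
    exact hG n hn)
  have r1 := sum_all (G.image fun n => n 0)
  exact p1.trans (mul_le_mul r1 q1 (Finset.sum_nonneg fun k _ => hf k) (by norm_num))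

lemma sum_tail4 (L : ℝ) (hL : 1 ≤ L) (G : Finset (Fin 2 → ℤ))
    (hG : ∀ n ∈ G, L ^ 2 < (n 0 : ℝ) ^ 2 + (n 1 : ℝ) ^ 2) :
    ∑ n ∈ G, 1 / (1 + (n 0 : ℝ) ^ 2) * (1 / (1 + (n 1 : ℝ) ^ 2)) ≤ 80 / L := by
  classical
  obtain ⟨P, hP⟩ : ∃ P : (Fin 2 → ℤ) → Prop, ∀ n, P n ↔ L ^ 2 < 2 * (n 0 : ℝ) ^ 2 :=
    ⟨_, fun n => Iff.rfl⟩
  rw [← Finset.sum_filter_add_sum_filter_not G P]
  have s1 := sum_tail2 L hL (G.filter P) (fun n hn => (hP n).1 (Finset.mem_filter.1 hn).2)
  have s2 := sum_tail3 L hL (G.filter fun n => ¬ P n) (by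
    intro n hn
    obtain ⟨hn1, hn2⟩ := Finset.mem_filter.1 hn
    have := hG n hn1
    rw [hP] at hn2
    push Not at hn2
    linarith)
  have : (80 : ℝ) / L = 8 / L * 5 + 5 * (8 / L) := by ring
  rw [this]
  exact add_le_add s1 s2

local instance msS : MeasureSpace UnitAddCircle := ⟨AddCircle.haarAddCircle⟩
local instance pmS : IsProbabilityMeasure (volume : Measure UnitAddCircle) :=
  inferInstanceAs (IsProbabilityMeasure AddCircle.haarAddCircle)

open Pool.Agent.TH281.DW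

/-- the cut-off -/
def cut (h : ℝ) (a : Torus) (x : Torus) : ℝ := ∏ i, ten h (x i - a i)

lemma ft_cut (h : ℝ) (h0 : 0 < h) (h1 : h ≤ 1 / 2) (a : Torus) (n : Z2) :
    ‖ft (cut h a) n‖ ≤ 1 / (1 + (n 0 : ℝ) ^ 2) * (1 / (1 + (n 1 : ℝ) ^ 2)) := by
  have e1 : ft (cut h a) n = ∏ i, ∫ t : UnitAddCircle,
      ((ten h (t - a i) : ℝ) : ℂ) * fourier (n i) t ∂AddCircle.haarAddCircle := by
    have := MeasureTheory.integral_fintype_prod_volume_eq_prod (ι := Fin 2) (𝕜 := ℂ)
      (E := fun _ => UnitAddCircle)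
      (f := fun i (t : UnitAddCircle) => ((ten h (t - a i) : ℝ) : ℂ) * fourier (n i) t)
    refine Eq.trans ?_ this
    unfold ft tmu
    refine integral_congr_ae (Eventually.of_forall fun x => ?_)
    simp only [cut, E, UnitAddTorus.mFourier, ContinuousMap.coe_mk]
    rw [Finset.prod_mul_distrib]
    push_cast
    rfl
  rw [e1, Fin.prod_univ_two, norm_mul]
  refine mul_le_mul ?_ ?_ (norm_nonneg _) (by positivity)
  · rw [coef_shift]; exact coef_le h h0 h1 _
  · rw [coef_shift]; exact coef_le h h0 h1 _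

theorem main : Pool.Agent.TH281.DW.TaskCut := by
  classical
  intro U hU ⟨a, ha⟩
  obtain ⟨ε, hε, hball⟩ := Metric.isOpen_iff.1 hU a ha
  set h : ℝ := min ε (1 / 2) with hh
  have h0 : 0 < h := lt_min hε (by norm_num)
  have h1 : h ≤ 1 / 2 := min_le_right _ _
  have hcont : Continuous (cut h a) := by
    unfold cut
    exact continuous_finsetProd _ fun i _ =>
      (ten_cont h).comp ((continuous_apply i).sub continuous_const)
  have hnn : ∀ x, 0 ≤ cut h a x := fun x => Finset.prod_nonneg fun i _ => ten_nonneg _ _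
  refine ⟨cut h a, hcont, hnn, ?_, ?_, ?_, ?_⟩
  · intro x
    exact Finset.prod_le_one (fun i _ => ten_nonneg _ _) fun i _ => ten_le (by linarith) _
  · intro x hx
    by_contra hne
    apply hx
    apply hball
    rw [Metric.mem_ball, dist_pi_lt_iff hε]
    intro i
    by_contra hc
    push Not at hc
    apply hne
    refine Finset.prod_eq_zero (Finset.mem_univ i) (ten_zero ?_)
    rw [← dist_eq_norm]
    exact (min_le_left _ _).trans hc
  · refine hcont.integral_pos_of_hasCompactSupport_nonneg_nonzero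
      (HasCompactSupport.of_compactSpace _) hnn (x := a) ?_
    unfold cut
    refine Finset.prod_ne_zero_iff.2 fun i _ => ?_
    rw [sub_self]
    exact (ten_pos h0).ne'
  · refine ⟨80, by norm_num, fun L hL G hG => ?_⟩
    have hb : ∑ n ∈ G, ‖ft (cut h a) n‖ ≤
        ∑ n ∈ G, 1 / (1 + (n 0 : ℝ) ^ 2) * (1 / (1 + (n 1 : ℝ) ^ 2)) :=
      Finset.sum_le_sum fun n _ => ft_cut h h0 h1 a n
    refine hb.trans (sum_tail4 L hL G fun n hn => ?_)
    have := hG n hn
    unfold fq at this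
    push_cast at this
    exact this

end

end Pool.Agent.TH592.J2104
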