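import Mathlib
import Pool.Agent.TH775.AC.Stmts

set_option autoImplicit false

open PowerSeries

namespace Pool.Agent.TH775.AC

namespace Der592

/-- coefficientwise differentiability -/
def CD (s : ℝ → ℂ⟦X⟧) (s' : ℂ⟦X⟧) (t : ℝ) : Prop :=
  ∀ j : ℕ, HasDerivAt (fun t => coeff j (s t)) (coeff j s') t

theorem CD.const (B : ℂ⟦X⟧) (t : ℝ) : CD (fun _ => B) 0 t := fun j => by
  simpa using hasDerivAt_const t (coeff j B)

theorem CD.line (A B : ℂ⟦X⟧) (t : ℝ) :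
    CD (fun t : ℝ => A + PowerSeries.C (t : ℂ) * B) B t := fun j => by
  have h : HasDerivAt (fun t : ℝ => coeff j A + (t : ℂ) * coeff j B) ((1 : ℂ) * coeff j B) t :=
    ((HasDerivAt.ofReal_comp (hasDerivAt_id t)).mul_const _).const_add _
  simpa [coeff_C_mul] using h

theorem CD.mul {s u : ℝ → ℂ⟦X⟧} {s' u' : ℂ⟦X⟧} {t : ℝ} (hs : CD s s' t) (hu : CD u u' t) :
    CD (fun t => s t * u t) (s' * u t + s t * u') t := fun j => by
  have h : HasDerivAt (fun t => ∑ p ∈ Finset.HasAntidiagonal.antidiagonal j, coeff p.1 (s t) * coeff p.2 (u t))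
      (∑ p ∈ Finset.HasAntidiagonal.antidiagonal j, (coeff p.1 s' * coeff p.2 (u t) +
        coeff p.1 (s t) * coeff p.2 u')) t :=
    HasDerivAt.fun_sum fun p _ => (hs p.1).mul (hu p.2)
  simpa only [coeff_mul, map_add, Finset.sum_add_distrib] using h

theorem CD.pow {s : ℝ → ℂ⟦X⟧} {s' : ℂ⟦X⟧} {t : ℝ} (hs : CD s s' t) (k : ℕ) :
    CD (fun t => s t ^ k) ((k : ℂ⟦X⟧) * s t ^ (k - 1) * s') t := by
  induction k with
  | zero => simpa using CD.const (1 : ℂ⟦X⟧) t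
  | succ k ih =>
      have h := ih.mul hs
      have e : ((k : ℂ⟦X⟧) * s t ^ (k - 1) * s') * s t + s t ^ k * s' =
          ((k + 1 : ℕ) : ℂ⟦X⟧) * s t ^ (k + 1 - 1) * s' := by
        rcases k with _ | k
        · simp
        · rw [Nat.add_sub_cancel, Nat.add_sub_cancel, pow_succ (s t) k]
          push_cast
          ring
      rw [e] at h
      intro j
      have := h j
      simpa only [pow_succ] using this

theorem CD.comb {s : ℕ → ℝ → ℂ⟦X⟧} {s' : ℕ → ℂ⟦X⟧} {t : ℝ} (φ : ℕ → ℂ) (N M : ℕ)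
    (h : ∀ k, CD (s k) (s' k) t) :
    HasDerivAt (fun t => ∑ k ∈ Finset.range M, φ k * coeff N (s k t))
      (∑ k ∈ Finset.range M, φ k * coeff N (s' k)) t :=
  HasDerivAt.fun_sum fun k _ => (h k N).const_mul _

end Der592

open Der592 in
theorem der : S_DER := by
  intro φ N A B t
  constructor
  · exact CD.comb (s := fun k t => (A + PowerSeries.C (t : ℂ) * B) ^ k)
      (s' := fun k => (k : ℂ⟦X⟧) * (A + PowerSeries.C (t : ℂ) * B) ^ (k - 1) * B) φ N (N + 1)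
      fun k => (CD.line A B t).pow k
  · refine CD.comb (s := fun k t => (k : ℂ⟦X⟧) * (A + PowerSeries.C (t : ℂ) * B) ^ (k - 1) * B)
      (s' := fun k => (k : ℂ⟦X⟧) * ((k - 1 : ℕ) : ℂ⟦X⟧) *
        (A + PowerSeries.C (t : ℂ) * B) ^ (k - 2) * B ^ 2) φ N (N + 1) fun k => ?_
    have h := ((CD.const (k : ℂ⟦X⟧) t).mul ((CD.line A B t).pow (k - 1))).mul (CD.const B t)
    have e : (0 * (A + PowerSeries.C (t : ℂ) * B) ^ (k - 1) + (k : ℂ⟦X⟧) *
        (((k - 1 : ℕ) : ℂ⟦X⟧) * (A + PowerSeries.C (t : ℂ) * B) ^ (k - 1 - 1) * B)) * B +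
        (k : ℂ⟦X⟧) * (A + PowerSeries.C (t : ℂ) * B) ^ (k - 1) * 0 =
        (k : ℂ⟦X⟧) * ((k - 1 : ℕ) : ℂ⟦X⟧) *
        (A + PowerSeries.C (t : ℂ) * B) ^ (k - 2) * B ^ 2 := by
      rw [Nat.sub_sub]
      ring
    rw [e] at h
    exact h

end Pool.Agent.TH775.AC
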