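import Mathlib
import Pool.Agent.TH775.AC.Stmts
import Pool.Agent.Helper469.Univalent

set_option autoImplicit false

open Complex Metric Set

namespace Pool.Agent.TH775.AC

namespace Log592

/-- logarithm on the disc -/
theorem exists_log (h : ℂ → ℂ) (hd : DifferentiableOn ℂ h (ball 0 1))
    (hz : ∀ z ∈ ball (0 : ℂ) 1, h z ≠ 0) (h1 : h 0 = 1) :
    ∃ g : ℂ → ℂ, g 0 = 0 ∧ DifferentiableOn ℂ g (ball 0 1) ∧
      ∀ z ∈ ball (0 : ℂ) 1, h z = exp (g z) := by
  have hd' : DifferentiableOn ℂ (deriv h) (ball 0 1) := hd.deriv isOpen_ball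
  have h2 : DifferentiableOn ℂ (fun z => deriv h z / h z) (ball 0 1) := hd'.div hd hz
  obtain ⟨g, hg0, hg⟩ := (h2.isExactOn_ball).with_val_at 0 0
  refine ⟨g, hg0, fun z hzR => (hg z hzR).differentiableAt.differentiableWithinAt, ?_⟩
  have h3 : ∀ z ∈ ball (0 : ℂ) 1, HasDerivAt (fun z => h z * exp (-g z)) 0 z := by
    intro z hzR
    have h4 := ((hd.differentiableAt (isOpen_ball.mem_nhds hzR)).hasDerivAt).mul
      ((hg z hzR).neg.cexp)
    refine h4.congr_deriv ?_
    have := hz z hzR
    field_simp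
    ring
  have h4 : ∀ z ∈ ball (0 : ℂ) 1, h z * exp (-g z) = h 0 * exp (-g 0) := by
    intro z hzR
    refine isOpen_ball.is_const_of_deriv_eq_zero (convex_ball 0 1).isPreconnected
      (fun w hw => (h3 w hw).differentiableAt.differentiableWithinAt)
      (fun w hw => (h3 w hw).deriv) hzR (mem_ball_self one_pos)
  intro z hzR
  have h5 := h4 z hzR
  rw [hg0, h1, neg_zero, exp_zero, mul_one, exp_neg] at h5
  have h6 : exp (g z) ≠ 0 := exp_ne_zero _
  field_simp at h5
  exact h5

end Log592

theorem log_of : S_LOG := by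
  intro α f hα hα1 hM
  have hfd := hM.s.diff
  have hnb : ball (0 : ℂ) 1 ∈ nhds (0 : ℂ) := isOpen_ball.mem_nhds (mem_ball_self one_pos)
  set F := dslope f 0 with hF
  have hFd : DifferentiableOn ℂ F (ball 0 1) := (Complex.differentiableOn_dslope hnb).2 hfd
  have hF0 : F 0 = 1 := by rw [hF, dslope_same]; exact hM.s.one
  have hzF : ∀ z, f z = z * F z := by
    intro z
    have := sub_smul_dslope f 0 z
    rw [hM.s.zero, sub_zero, sub_zero, smul_eq_mul] at this
    exact this.symm
  have hFne : ∀ z ∈ ball (0 : ℂ) 1, F z ≠ 0 := by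
    intro z hz h0
    have h1 : f z = f 0 := by rw [hzF z, h0, mul_zero, hM.s.zero]
    have h2 := hM.s.inj hz (mem_ball_self one_pos) h1
    rw [h2, hF0] at h0
    exact one_ne_zero h0
  obtain ⟨l, hl0, hld, hl⟩ := Log592.exists_log F hFd hFne hF0
  have hfl : ∀ z ∈ ball (0 : ℂ) 1, f z = z * exp (l z) := fun z hz => by rw [hzF z, hl z hz]
  have hld' : DifferentiableOn ℂ (deriv l) (ball 0 1) := hld.deriv isOpen_ball
  set p : ℂ → ℂ := fun z => 1 + z * deriv l z with hp
  have hpd : DifferentiableOn ℂ p (ball 0 1) :=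
    (differentiableOn_const _).add (differentiableOn_id.mul hld')
  have hlder : ∀ z ∈ ball (0 : ℂ) 1, HasDerivAt l (deriv l z) z := fun z hz =>
    (hld.differentiableAt (isOpen_ball.mem_nhds hz)).hasDerivAt
  have hpder : ∀ z ∈ ball (0 : ℂ) 1, HasDerivAt p (deriv p z) z := fun z hz =>
    (hpd.differentiableAt (isOpen_ball.mem_nhds hz)).hasDerivAt
  -- first derivative
  have hd1 : ∀ z ∈ ball (0 : ℂ) 1, deriv f z = exp (l z) * p z := by
    intro z hz
    have h1 : HasDerivAt (fun z => z * exp (l z)) (1 * exp (l z) + z * (exp (l z) * deriv l z)) z :=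
      (hasDerivAt_id z).mul (hlder z hz).cexp
    have h2 : f =ᶠ[nhds z] fun z => z * exp (l z) := by
      filter_upwards [isOpen_ball.mem_nhds hz] with w hw using hfl w hw
    rw [h2.deriv_eq, h1.deriv, hp]
    ring
  have hd2 : ∀ z ∈ ball (0 : ℂ) 1, deriv (deriv f) z =
      exp (l z) * (deriv l z * p z + deriv p z) := by
    intro z hz
    have h1 : HasDerivAt (fun z => exp (l z) * p z)
        (exp (l z) * deriv l z * p z + exp (l z) * deriv p z) z :=
      (hlder z hz).cexp.mul (hpder z hz)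
    have h2 : deriv f =ᶠ[nhds z] fun z => exp (l z) * p z := by
      filter_upwards [isOpen_ball.mem_nhds hz] with w hw using hd1 w hw
    rw [h2.deriv_eq, h1.deriv]
    ring
  have hpne : ∀ z ∈ ball (0 : ℂ) 1, p z ≠ 0 := by
    intro z hz h0
    have h1 := Pool.Agent.Helper469.Univalent.deriv_ne_zero_of_injOn isOpen_ball hfd hM.s.inj hz
    rw [hd1 z hz, h0, mul_zero] at h1
    exact h1 rfl
  refine ⟨l, ⟨hld, hl0, hpne, ?_⟩, hfl⟩
  intro z hz
  by_cases hz0 : z = 0
  · subst hz0
    simp
  · have h1 := hM.pos z hz hz0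
    have hpz := hpne z hz
    have he : exp (l z) ≠ 0 := exp_ne_zero _
    have e : (α : ℂ) * (1 + z * deriv (deriv f) z / deriv f z) +
        (1 - (α : ℂ)) * (z * deriv f z / f z) = p z + (α : ℂ) * (z * deriv p z) / p z := by
      rw [hd2 z hz, hd1 z hz, hfl z hz]
      have e1 : z * (exp (l z) * (deriv l z * p z + deriv p z)) / (exp (l z) * p z) =
          z * deriv l z + z * deriv p z / p z := by
        field_simp
      have e2 : z * (exp (l z) * p z) / (z * exp (l z)) = p z := by
        field_simp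
      rw [e1, e2]
      have e3 : z * deriv l z = p z - 1 := by rw [hp]; ring
      rw [e3]
      ring
    rw [e] at h1
    exact h1

end Pool.Agent.TH775.AC
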