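import Pool.Agent.TH580.LM.Cert

set_option autoImplicit false

namespace Pool.Agent.TH592.CU

open MeasureTheory Set Filter Pool.Agent.TH580.LM Pool.Agent.W678.LM Pool.Agent.W686.LP
open scoped ENNReal Topology

/-- `y / (1 - e^{-2py})` -/
noncomputable def wp (p y : ℝ) : ℝ := y / (1 - Real.exp (-(2 * p * y)))

/-- the difference quotient -/
noncomputable def ph (p y : ℝ) : ℝ := p * ((wp p y) ^ (1 / p) - 1)

theorem den_pos {p y : ℝ} (hp : 0 < p) (hy : 0 < y) : 0 < 1 - Real.exp (-(2 * p * y)) := by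
  have : Real.exp (-(2 * p * y)) < 1 := by
    rw [Real.exp_lt_one_iff]
    have : 0 < 2 * p * y := by positivity
    linarith
  linarith

theorem wp_ge {p y : ℝ} (hp : 0 < p) (hy : 0 < y) : y ≤ wp p y := by
  unfold wp
  rw [le_div_iff₀ (den_pos hp hy)]
  have := Real.exp_pos (-(2 * p * y))
  nlinarith

theorem wp_pos {p y : ℝ} (hp : 0 < p) (hy : 0 < y) : 0 < wp p y := lt_of_lt_of_le hy (wp_ge hp hy)

theorem wp_le {p y : ℝ} (hp : 1 ≤ p) (hy : 0 < y) : wp p y ≤ 1 + y := by
  have hp0 : 0 < p := by linarith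
  unfold wp
  rw [div_le_iff₀ (den_pos hp0 hy)]
  -- e^{-x} ≤ 1/(1+x), x = 2 p y ≥ y
  have h1 : Real.exp (-(2 * p * y)) * (1 + 2 * p * y) ≤ 1 := by
    have h2 : 1 + 2 * p * y ≤ Real.exp (2 * p * y) := by
      have := Real.add_one_le_exp (2 * p * y); linarith
    calc Real.exp (-(2 * p * y)) * (1 + 2 * p * y) ≤ Real.exp (-(2 * p * y)) * Real.exp (2 * p * y) :=
          mul_le_mul_of_nonneg_left h2 (Real.exp_pos _).le
      _ = 1 := by rw [← Real.exp_add]; simp
  have h3 : Real.exp (-(2 * p * y)) * (1 + y) ≤ 1 := by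
    refine le_trans (mul_le_mul_of_nonneg_left ?_ (Real.exp_pos _).le) h1
    nlinarith
  linarith

theorem ph_ge {p y : ℝ} (hp : 1 ≤ p) (hy : 0 < y) : Real.log y ≤ ph p y := by
  have hp0 : 0 < p := by linarith
  have hw := wp_pos hp0 hy
  have h1 : Real.log y ≤ Real.log (wp p y) := Real.log_le_log hy (wp_ge hp0 hy)
  refine h1.trans ?_
  unfold ph
  rw [Real.rpow_def_of_pos hw]
  have h2 := Real.add_one_le_exp (Real.log (wp p y) * (1 / p))
  have h3 : Real.log (wp p y) = p * (Real.log (wp p y) * (1 / p)) := by field_simp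
  conv_lhs => rw [h3]
  exact mul_le_mul_of_nonneg_left (by linarith) hp0.le

theorem ph_le {p y : ℝ} (hp : 1 ≤ p) (hy : 0 < y) : ph p y ≤ y := by
  have hp0 : 0 < p := by linarith
  have hw := wp_pos hp0 hy
  unfold ph
  have h1 : (wp p y) ^ (1 / p) ≤ (1 + y) ^ (1 / p) :=
    Real.rpow_le_rpow hw.le (wp_le hp hy) (by positivity)
  have h2 : (1 + y) ^ (1 / p) ≤ 1 + 1 / p * y :=
    _root_.rpow_one_add_le_one_add_mul_self (by linarith) (by positivity)
      (by rw [div_le_one hp0]; exact hp)
  calc p * ((wp p y) ^ (1 / p) - 1) ≤ p * (1 / p * y) :=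
        mul_le_mul_of_nonneg_left (by linarith) hp0.le
    _ = y := by field_simp

theorem ph_le' {p y : ℝ} (hp : 1 ≤ p) (hy : 0 < y) :
    ph p y ≤ Real.log (wp p y) * (wp p y) ^ (1 / p) := by
  have hp0 : 0 < p := by linarith
  have hw := wp_pos hp0 hy
  unfold ph
  rw [Real.rpow_def_of_pos hw]
  set x := Real.log (wp p y) * (1 / p) with hx
  have h3 : Real.log (wp p y) = p * x := by rw [hx]; field_simp
  rw [h3, mul_assoc]
  refine mul_le_mul_of_nonneg_left ?_ hp0.le
  -- e^x - 1 ≤ x e^x
  have h4 := Real.add_one_le_exp (-x)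
  have h5 : (1 - x) * Real.exp x ≤ 1 := by
    calc (1 - x) * Real.exp x ≤ Real.exp (-x) * Real.exp x :=
          mul_le_mul_of_nonneg_right (by linarith) (Real.exp_pos _).le
      _ = 1 := by rw [← Real.exp_add]; simp
  linarith

theorem wp_tendsto {y : ℝ} (hy : 0 < y) : Tendsto (fun p => wp p y) atTop (𝓝 y) := by
  unfold wp
  have h1 : Tendsto (fun p : ℝ => Real.exp (-(2 * p * y))) atTop (𝓝 0) := by
    refine Real.tendsto_exp_neg_atTop_nhds_zero.comp ?_
    exact (tendsto_id.const_mul_atTop (by norm_num : (0:ℝ) < 2)).atTop_mul_const hy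
  have h2 : Tendsto (fun p : ℝ => y / (1 - Real.exp (-(2 * p * y)))) atTop (𝓝 (y / (1 - 0))) :=
    tendsto_const_nhds.div (tendsto_const_nhds.sub h1) (by norm_num)
  simpa using h2

theorem ph_tendsto {y : ℝ} (hy : 0 < y) : Tendsto (fun p => ph p y) atTop (𝓝 (Real.log y)) := by
  have hw := wp_tendsto hy
  have hl : Tendsto (fun p => Real.log (wp p y)) atTop (𝓝 (Real.log y)) :=
    (Real.continuousAt_log hy.ne').tendsto.comp hw
  have hinv : Tendsto (fun p : ℝ => 1 / p) atTop (𝓝 0) := by
    simpa using tendsto_inv_atTop_zero (𝕜 := ℝ)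
  have hr : Tendsto (fun p => (wp p y) ^ (1 / p)) atTop (𝓝 1) := by
    have := hw.rpow hinv (Or.inl hy.ne')
    simpa using this
  have hu : Tendsto (fun p => Real.log (wp p y) * (wp p y) ^ (1 / p)) atTop (𝓝 (Real.log y)) := by
    simpa using hl.mul hr
  refine tendsto_of_tendsto_of_tendsto_of_le_of_le' tendsto_const_nhds hu ?_ ?_
  · filter_upwards [eventually_ge_atTop (1 : ℝ)] with p hp using ph_ge hp hy
  · filter_upwards [eventually_ge_atTop (1 : ℝ)] with p hp using ph_le' hp hy

theorem abs_log_le {y : ℝ} (hy : 0 < y) : |Real.log y| ≤ 2 * y ^ (-(1 / 2 : ℝ)) + y := by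
  have h0 : 0 < y ^ (-(1 / 2 : ℝ)) := Real.rpow_pos_of_pos hy _
  rcases le_total 1 y with h | h
  · rw [abs_of_nonneg (Real.log_nonneg h)]
    have := Real.log_le_sub_one_of_pos hy
    linarith
  · rw [abs_of_nonpos (Real.log_nonpos hy.le h)]
    have h1 := Real.log_le_sub_one_of_pos h0
    rw [Real.log_rpow hy] at h1
    linarith

theorem int1 : IntegrableOn (fun y : ℝ => Real.exp (-y) * y) (Ioi 0) := by
  have := Real.GammaIntegral_convergent (s := 2) (by norm_num)
  refine this.congr_fun (fun x hx => ?_) measurableSet_Ioi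
  norm_num

theorem int2 : IntegrableOn (fun y : ℝ => Real.exp (-y) * y ^ (-(1 / 2 : ℝ))) (Ioi 0) := by
  have := Real.GammaIntegral_convergent (s := 1 / 2) (by norm_num)
  refine this.congr_fun (fun x hx => ?_) measurableSet_Ioi
  norm_num

theorem intB : IntegrableOn (fun y : ℝ => Real.exp (-y) * (|Real.log y| + y)) (Ioi 0) := by
  have h : IntegrableOn (fun y : ℝ => 2 * (Real.exp (-y) * y ^ (-(1 / 2 : ℝ))) +
      2 * (Real.exp (-y) * y)) (Ioi 0) := (int2.const_mul 2).add (int1.const_mul 2)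
  refine Integrable.mono' h ?_ ?_
  · have : Measurable fun y : ℝ => Real.exp (-y) * (|Real.log y| + y) := by
      have := Real.measurable_log
      fun_prop
    exact this.aestronglyMeasurable
  · refine (ae_restrict_iff' measurableSet_Ioi).2 (Eventually.of_forall fun y hy => ?_)
    have hy' : 0 < y := hy
    have h1 := abs_log_le hy'
    have h2 : 0 < Real.exp (-y) := Real.exp_pos _
    rw [Real.norm_of_nonneg (by positivity)]
    nlinarith [mul_le_mul_of_nonneg_left h1 h2.le]

theorem meas_ph (p : ℝ) : Measurable (ph p) := by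
  unfold ph wp
  fun_prop

theorem bd_ph {p y : ℝ} (hp : 1 ≤ p) (hy : 0 < y) : |ph p y| ≤ |Real.log y| + y := by
  have h1 := ph_ge hp hy
  have h2 := ph_le hp hy
  rw [abs_le]
  constructor
  · have := neg_abs_le (Real.log y); linarith
  · have := abs_nonneg (Real.log y); linarith

theorem int_ph {p : ℝ} (hp : 1 ≤ p) : IntegrableOn (fun y : ℝ => Real.exp (-y) * ph p y) (Ioi 0) := by
  refine Integrable.mono' intB ?_ ?_
  · have : Measurable fun y : ℝ => Real.exp (-y) * ph p y := by
      have := meas_ph p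
      fun_prop
    exact this.aestronglyMeasurable
  · refine (ae_restrict_iff' measurableSet_Ioi).2 (Eventually.of_forall fun y hy => ?_)
    have hy' : 0 < y := hy
    rw [norm_mul, Real.norm_of_nonneg (Real.exp_pos _).le]
    exact mul_le_mul_of_nonneg_left (bd_ph hp hy') (Real.exp_pos _).le

theorem lim_ph : Tendsto (fun p : ℝ => ∫ y in Ioi (0 : ℝ), Real.exp (-y) * ph p y) atTop
    (𝓝 (∫ y in Ioi (0 : ℝ), Real.exp (-y) * Real.log y)) := by
  refine tendsto_integral_filter_of_dominated_convergence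
    (fun y : ℝ => Real.exp (-y) * (|Real.log y| + y)) ?_ ?_ intB ?_
  · refine Eventually.of_forall fun p => ?_
    have : Measurable fun y : ℝ => Real.exp (-y) * ph p y := by
      have := meas_ph p
      fun_prop
    exact this.aestronglyMeasurable
  · filter_upwards [eventually_ge_atTop (1 : ℝ)] with p hp
    refine (ae_restrict_iff' measurableSet_Ioi).2 (Eventually.of_forall fun y hy => ?_)
    have hy' : 0 < y := hy
    rw [norm_mul, Real.norm_of_nonneg (Real.exp_pos _).le]
    exact mul_le_mul_of_nonneg_left (bd_ph hp hy') (Real.exp_pos _).le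
  · refine (ae_restrict_iff' measurableSet_Ioi).2 (Eventually.of_forall fun y hy => ?_)
    exact (ph_tendsto hy).const_mul _

theorem g_form {p y : ℝ} (hp : 1 ≤ p) (hy : 0 < y) :
    g p y = p ^ (1 / p) * (Real.exp (-y) + 1 / p * (Real.exp (-y) * ph p y)) := by
  have hp0 : 0 < p := by linarith
  have hw := wp_pos hp0 hy
  have h1 : Real.exp (-y) + 1 / p * (Real.exp (-y) * ph p y) = Real.exp (-y) * (wp p y) ^ (1 / p) := by
    unfold ph
    field_simp
    ring
  rw [h1]
  have hf : f p y = Real.exp (p * y) * (p * wp p y)⁻¹ := by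
    rw [f_eq hp0 hy.ne']
    unfold wp
    have e1 : Real.exp (-(p * y)) = Real.exp (p * y) * Real.exp (-(2 * p * y)) := by
      rw [← Real.exp_add]; congr 1; ring
    rw [e1]
    have hd := den_pos hp0 hy
    field_simp
  unfold g
  rw [hf, Real.mul_rpow (Real.exp_pos _).le (by positivity), ← Real.exp_mul,
    Real.inv_rpow (by positivity), ← Real.rpow_neg (by positivity), neg_neg,
    Real.mul_rpow hp0.le hw.le]
  have e2 : p * y * -(1 / p) = -y := by field_simp
  rw [e2]
  ring

theorem z_form {p : ℝ} (hp : 1 ≤ p) :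
    z p = 2 * (p ^ (1 / p) * (1 + 1 / p * ∫ y in Ioi (0 : ℝ), Real.exp (-y) * ph p y)) := by
  rw [z_half]
  congr 1
  have e : ∫ y in Ioi (0 : ℝ), g p y = ∫ y in Ioi (0 : ℝ),
      p ^ (1 / p) * (Real.exp (-y) + 1 / p * (Real.exp (-y) * ph p y)) :=
    setIntegral_congr_fun measurableSet_Ioi fun y hy => g_form hp hy
  rw [e, integral_const_mul, integral_add, integral_const_mul]
  · congr 2
    exact integral_exp_neg_Ioi_zero
  · exact integrableOn_exp_neg_Ioi 0
  · exact (int_ph hp).const_mul _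

theorem thm : S_CU := by
  intro n ε hε
  set E := ∫ y in Ioi (0 : ℝ), Real.exp (-y) * Real.log y with hE
  have hδ : 0 < ε / (n + 1) := by positivity
  have h1 : ∀ᶠ p : ℝ in atTop, ∫ y in Ioi (0 : ℝ), Real.exp (-y) * ph p y < E + ε / (n + 1) :=
    lim_ph.eventually_lt_const (by linarith)
  obtain ⟨P, hP⟩ := eventually_atTop.1 h1
  refine ⟨max P 2, lt_of_lt_of_le (by norm_num) (le_max_right _ _), fun p hp => ?_⟩
  have hpP : P ≤ p := (le_max_left _ _).trans hp
  have hp2 : 2 ≤ p := (le_max_right _ _).trans hp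
  have hp0 : 0 < p := by linarith
  have hI := hP p hpP
  rw [Mp_cube hp0]
  refine ENNReal.ofReal_le_ofReal ?_
  have hz := z_form (p := p) (by linarith)
  set I := ∫ y in Ioi (0 : ℝ), Real.exp (-y) * ph p y with hIdef
  have hzp := z_pos hp0
  have h2 : z p ≤ 2 * (p ^ (1 / p) * Real.exp ((E + ε / (n + 1)) / p)) := by
    rw [hz]
    have h3 : 1 + 1 / p * I ≤ Real.exp ((E + ε / (n + 1)) / p) := by
      have h4 := Real.add_one_le_exp ((E + ε / (n + 1)) / p)
      have h5 : 1 / p * I ≤ (E + ε / (n + 1)) / p := by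
        rw [div_eq_mul_one_div (E + ε / (n + 1)) p, mul_comm]
        exact mul_le_mul_of_nonneg_right hI.le (by positivity)
      linarith
    have h6 : 0 ≤ p ^ (1 / p) := by positivity
    nlinarith [mul_le_mul_of_nonneg_left h3 h6]
  have h7 : ((2:ℝ) ^ n) ^ (q p) = ((2 : ℝ) ^ (q p)) ^ n := by
    rw [← Real.rpow_natCast, ← Real.rpow_mul (by norm_num), mul_comm, Real.rpow_mul (by norm_num),
      Real.rpow_natCast]
  rw [h7, ← mul_pow]
  have h8 : (2 : ℝ) ^ (q p) * z p ≤ 4 * Real.exp ((Real.log p + DI + ε / (n + 1)) / p) := by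
    have e1 : (2 : ℝ) ^ (q p) = 2 * Real.exp (Real.log 2 / p) := by
      unfold q
      rw [Real.rpow_add (by norm_num), Real.rpow_one, Real.rpow_def_of_pos (by norm_num)]
      congr 2
      ring
    have e2 : p ^ (1 / p) = Real.exp (Real.log p / p) := by
      rw [Real.rpow_def_of_pos hp0]
      congr 1
      ring
    rw [e1]
    rw [e2] at h2
    calc 2 * Real.exp (Real.log 2 / p) * z p ≤ 2 * Real.exp (Real.log 2 / p) *
          (2 * (Real.exp (Real.log p / p) * Real.exp ((E + ε / (n + 1)) / p))) :=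
          mul_le_mul_of_nonneg_left h2 (by positivity)
      _ = 4 * (Real.exp (Real.log 2 / p) * Real.exp (Real.log p / p) *
          Real.exp ((E + ε / (n + 1)) / p)) := by ring
      _ = _ := by
          rw [← Real.exp_add, ← Real.exp_add]
          congr 2
          unfold DI
          rw [← hE]
          ring
  calc ((2 : ℝ) ^ (q p) * z p) ^ n ≤ (4 * Real.exp ((Real.log p + DI + ε / (n + 1)) / p)) ^ n :=
        pow_le_pow_left₀ (by positivity) h8 n
    _ = 4 ^ n * Real.exp ((n * Real.log p + n * DI + n * (ε / (n + 1))) / p) := by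
        rw [mul_pow, ← Real.exp_nat_mul]
        congr 2
        ring
    _ ≤ _ := by
        refine mul_le_mul_of_nonneg_left ?_ (by positivity)
        rw [Real.exp_le_exp]
        refine div_le_div_of_nonneg_right ?_ hp0.le
        have : (n : ℝ) * (ε / (n + 1)) ≤ ε := by
          rw [mul_div_assoc', div_le_iff₀ (by positivity)]
          nlinarith
        linarith

end Pool.Agent.TH592.CU
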