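import Pool.Agent.TH580.LM.Cert

set_option autoImplicit false

namespace Pool.Agent.TH592.PPS

open MeasureTheory Set Pool.Agent.TH580.LM
open scoped ENNReal

theorem scale (R : ℝ) (hR : 0 < R) (g : ℝ → ℝ≥0∞) :
    ∫⁻ u in Ioo (0 : ℝ) R, g u = ∫⁻ t in Ioo (0 : ℝ) 1, ENNReal.ofReal R * g (R * t) := by
  have himg : (fun t : ℝ => R * t) '' Ioo (0 : ℝ) 1 = Ioo 0 R := by
    rw [image_mul_left_Ioo hR]; simp
  have h := lintegral_image_eq_lintegral_abs_deriv_mul (f := fun t : ℝ => R * t)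
    (f' := fun _ => R) (s := Ioo (0 : ℝ) 1) measurableSet_Ioo
    (fun x _ => by simpa using ((hasDerivAt_id x).const_mul R).hasDerivWithinAt)
    (fun x _ y _ hxy => mul_left_cancel₀ hR.ne' hxy) g
  rw [himg, abs_of_pos hR] at h
  exact h

theorem swap (F : ℝ → ℝ → ℝ≥0∞) (hF : Measurable fun c : ℝ × ℝ => F c.1 c.2) :
    ∫⁻ R in Ioi (0 : ℝ), ∫⁻ u in Ioo (0 : ℝ) R, F u R =
      ∫⁻ u in Ioi (0 : ℝ), ∫⁻ R in Ioi u, F u R := by
  set H : ℝ → ℝ → ℝ≥0∞ := fun u R => {c : ℝ × ℝ | 0 < c.1 ∧ c.1 < c.2}.indicator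
    (fun c => F c.1 c.2) (u, R) with hH
  have hset : MeasurableSet {c : ℝ × ℝ | 0 < c.1 ∧ c.1 < c.2} :=
    (measurableSet_lt measurable_const measurable_fst).inter
      (measurableSet_lt measurable_fst measurable_snd)
  have hHm : Measurable fun c : ℝ × ℝ => H c.1 c.2 := hF.indicator hset
  have e1 : ∫⁻ R in Ioi (0 : ℝ), ∫⁻ u in Ioo (0 : ℝ) R, F u R = ∫⁻ R, ∫⁻ u, H u R := by
    rw [← lintegral_indicator measurableSet_Ioi]
    refine lintegral_congr fun R => ?_
    by_cases hR : 0 < R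
    · rw [indicator_of_mem (mem_Ioi.2 hR), ← lintegral_indicator measurableSet_Ioo]
      refine lintegral_congr fun u => ?_
      by_cases hu : 0 < u ∧ u < R
      · simp only [hH]
        rw [indicator_of_mem (show u ∈ Ioo (0 : ℝ) R from hu), indicator_of_mem (show
          (u, R) ∈ {c : ℝ × ℝ | 0 < c.1 ∧ c.1 < c.2} from hu)]
      · simp only [hH]
        rw [indicator_of_notMem (show u ∉ Ioo (0 : ℝ) R from hu), indicator_of_notMem (show
          (u, R) ∉ {c : ℝ × ℝ | 0 < c.1 ∧ c.1 < c.2} from hu)]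
    · rw [indicator_of_notMem (by simpa using hR)]
      symm
      refine (lintegral_congr fun u => ?_).trans lintegral_zero
      simp only [hH]
      rw [indicator_of_notMem]
      rintro ⟨h1, h2⟩
      exact hR (lt_trans h1 h2)
  have e2 : ∫⁻ u in Ioi (0 : ℝ), ∫⁻ R in Ioi u, F u R = ∫⁻ u, ∫⁻ R, H u R := by
    rw [← lintegral_indicator measurableSet_Ioi]
    refine lintegral_congr fun u => ?_
    by_cases hu : 0 < u
    · rw [indicator_of_mem (mem_Ioi.2 hu), ← lintegral_indicator measurableSet_Ioi]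
      refine lintegral_congr fun R => ?_
      by_cases hR : u < R
      · simp only [hH]
        rw [indicator_of_mem (mem_Ioi.2 hR), indicator_of_mem (show
          (u, R) ∈ {c : ℝ × ℝ | 0 < c.1 ∧ c.1 < c.2} from ⟨hu, hR⟩)]
      · simp only [hH]
        rw [indicator_of_notMem (by simpa using hR), indicator_of_notMem (fun h => hR h.2)]
    · rw [indicator_of_notMem (by simpa using hu)]
      symm
      refine (lintegral_congr fun R => ?_).trans lintegral_zero
      simp only [hH]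
      rw [indicator_of_notMem]
      rintro ⟨h1, h2⟩
      exact hu h1
  rw [e1, e2]
  exact (lintegral_lintegral_swap hHm.aemeasurable).symm

theorem transl (u : ℝ) (g : ℝ → ℝ≥0∞) :
    ∫⁻ R in Ioi u, g (R - u) = ∫⁻ s in Ioi (0 : ℝ), g s := by
  rw [← lintegral_indicator measurableSet_Ioi, ← lintegral_indicator measurableSet_Ioi,
    ← lintegral_sub_right_eq_self ((Ioi (0 : ℝ)).indicator g) u]
  refine lintegral_congr fun R => ?_
  by_cases h : u < R
  · rw [indicator_of_mem (mem_Ioi.2 h), indicator_of_mem (mem_Ioi.2 (sub_pos.2 h))]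
  · rw [indicator_of_notMem (by simpa using h), indicator_of_notMem (by simpa using h)]

/-- polar coordinates for the quadrant and the simplex -/
theorem coreP (G : ℝ → ℝ → ℝ≥0∞) (hG : Measurable fun c : ℝ × ℝ => G c.1 c.2) :
    ∫⁻ r in Ioi (0 : ℝ), ∫⁻ s in Ioi (0 : ℝ), G r s =
      ∫⁻ R in Ioi (0 : ℝ), ∫⁻ t in Ioo (0 : ℝ) 1, ENNReal.ofReal R * G (R * t) (R * (1 - t)) := by
  have h1 : ∫⁻ R in Ioi (0 : ℝ), ∫⁻ t in Ioo (0 : ℝ) 1,
      ENNReal.ofReal R * G (R * t) (R * (1 - t)) =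
      ∫⁻ R in Ioi (0 : ℝ), ∫⁻ u in Ioo (0 : ℝ) R, G u (R - u) := by
    refine setLIntegral_congr_fun measurableSet_Ioi fun R hR => ?_
    rw [scale R hR (fun u => G u (R - u))]
    refine lintegral_congr fun t => ?_
    rw [mul_one_sub]
  rw [h1, swap (fun u R => G u (R - u))]
  · refine lintegral_congr fun u => ?_
    exact (transl u (G u)).symm
  · exact hG.comp (measurable_fst.prodMk (measurable_snd.sub measurable_fst))

/-- polar coordinates for the quadrant and the square -/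
theorem coreS (G : ℝ → ℝ → ℝ≥0∞) (hG : Measurable fun c : ℝ × ℝ => G c.1 c.2) :
    ∫⁻ r in Ioi (0 : ℝ), ∫⁻ s in Ioi (0 : ℝ), G r s =
      (∫⁻ R in Ioi (0 : ℝ), ∫⁻ t in Ioo (0 : ℝ) 1, ENNReal.ofReal R * G R (R * t)) +
      ∫⁻ R in Ioi (0 : ℝ), ∫⁻ t in Ioo (0 : ℝ) 1, ENNReal.ofReal R * G (R * t) R := by
  have h1 : ∫⁻ R in Ioi (0 : ℝ), ∫⁻ t in Ioo (0 : ℝ) 1, ENNReal.ofReal R * G (R * t) R =
      ∫⁻ r in Ioi (0 : ℝ), ∫⁻ s in Ioi r, G r s := by
    rw [← swap G hG]
    refine setLIntegral_congr_fun measurableSet_Ioi fun R hR => ?_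
    exact (scale R hR (fun u => G u R)).symm
  have h2 : ∫⁻ R in Ioi (0 : ℝ), ∫⁻ t in Ioo (0 : ℝ) 1, ENNReal.ofReal R * G R (R * t) =
      ∫⁻ r in Ioi (0 : ℝ), ∫⁻ s in Ioc (0 : ℝ) r, G r s := by
    refine setLIntegral_congr_fun measurableSet_Ioi fun R hR => ?_
    rw [← restrict_Ioo_eq_restrict_Ioc]
    exact (scale R hR (fun u => G R u)).symm
  rw [h1, h2, ← lintegral_add_right]
  · refine setLIntegral_congr_fun measurableSet_Ioi fun r hr => ?_
    have hr' : (0 : ℝ) ≤ r := le_of_lt hr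
    rw [← lintegral_union measurableSet_Ioi, Ioc_union_Ioi_eq_Ioi hr']
    exact Set.disjoint_left.2 fun x hx hx' => not_lt.2 hx.2 hx'
  · have hset : MeasurableSet {c : ℝ × ℝ | c.1 < c.2} :=
      measurableSet_lt measurable_fst measurable_snd
    have h3 := (hG.indicator hset).lintegral_prod_right' (ν := volume)
    have h4 : (fun r : ℝ => ∫⁻ s in Ioi r, G r s) = fun r => ∫⁻ s : ℝ,
        {c : ℝ × ℝ | c.1 < c.2}.indicator (fun c => G c.1 c.2) (r, s) := by
      funext r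
      rw [← lintegral_indicator measurableSet_Ioi]
      refine lintegral_congr fun s => ?_
      by_cases h : r < s
      · rw [indicator_of_mem (mem_Ioi.2 h), indicator_of_mem (show
            (r, s) ∈ {c : ℝ × ℝ | c.1 < c.2} from h)]
      · rw [indicator_of_notMem (by simpa using h), indicator_of_notMem (show
            (r, s) ∉ {c : ℝ × ℝ | c.1 < c.2} from h)]
    rw [h4]
    exact h3

theorem measurable_bd (a b : ℕ) : Measurable (bd a b) := by
  unfold bd; fun_prop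

theorem lint_Bt (a b : ℕ) (g : ℝ → ℝ≥0∞) (hg : Measurable g) :
    ∫⁻ t, g t ∂(Bt a b) = ∫⁻ t in Ioo (0 : ℝ) 1, ENNReal.ofReal (bd a b t) * g t := by
  unfold Bt
  rw [lintegral_withDensity_eq_lintegral_mul _ (measurable_bd a b).ennreal_ofReal hg]
  rfl

theorem push (c : ℝ≥0∞) (hc : c ≠ ∞) (μ : Measure ℝ) (g : ℝ → ℝ≥0∞) :
    c * ∫⁻ x, g x ∂μ = ∫⁻ x, c * g x ∂μ := (lintegral_const_mul' c g hc).symm

theorem ptP (a b : ℕ) (R t : ℝ) (hR : 0 < R) (ht : t ∈ Ioo (0 : ℝ) 1) (X : ℝ≥0∞) :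
    (((a + 1).factorial * (b + 1).factorial : ℕ) : ℝ≥0∞) * (((a + 1 + (b + 1) : ℕ) : ℝ≥0∞) *
      (ENNReal.ofReal (R ^ (a + 1 + (b + 1) - 1)) *
        (ENNReal.ofReal (bd (a + 1) (b + 1) t) * X))) =
    ((a + 1 + (b + 1)).factorial : ℝ≥0∞) * ((((a + 1) * (b + 1) : ℕ) : ℝ≥0∞) *
      (ENNReal.ofReal R * (ENNReal.ofReal ((R * t) ^ a) *
        (ENNReal.ofReal ((R * (1 - t)) ^ b) * X)))) := by
  have ht0 : 0 < t := ht.1
  have ht1 : 0 < 1 - t := sub_pos.2 ht.2
  simp only [← mul_assoc]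
  congr 1
  rw [← ENNReal.ofReal_natCast, ← ENNReal.ofReal_natCast, ← ENNReal.ofReal_natCast,
    ← ENNReal.ofReal_natCast, ← ENNReal.ofReal_mul (by positivity),
    ← ENNReal.ofReal_mul (by positivity), ← ENNReal.ofReal_mul (by positivity),
    ← ENNReal.ofReal_mul (by positivity), ← ENNReal.ofReal_mul (by positivity),
    ← ENNReal.ofReal_mul (by positivity), ← ENNReal.ofReal_mul (by positivity)]
  congr 1
  have e' : a + 1 + (b + 1) = a + b + 1 + 1 := by omega
  simp only [bd, Nat.add_sub_cancel, e', Nat.factorial_succ]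
  push_cast
  rw [mul_pow R t a, mul_pow R (1 - t) b]
  field_simp
  ring

theorem pp : S_PP := by
  intro a b ha hb f hf
  obtain ⟨a, rfl⟩ := Nat.exists_eq_add_of_le' ha
  obtain ⟨b, rfl⟩ := Nat.exists_eq_add_of_le' hb
  have e1 : ∫⁻ r in Ioi (0 : ℝ), ENNReal.ofReal (r ^ (a + 1 - 1)) *
      ∫⁻ s in Ioi (0 : ℝ), ENNReal.ofReal (s ^ (b + 1 - 1)) * f r s =
      ∫⁻ r in Ioi (0 : ℝ), ∫⁻ s in Ioi (0 : ℝ),
        ENNReal.ofReal (r ^ a) * (ENNReal.ofReal (s ^ b) * f r s) := by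
    refine lintegral_congr fun r => ?_
    rw [push _ ENNReal.ofReal_ne_top]
    rfl
  have hG : Measurable fun c : ℝ × ℝ => ENNReal.ofReal (c.1 ^ a) * (ENNReal.ofReal (c.2 ^ b) *
      f c.1 c.2) := by fun_prop
  rw [e1, coreP (fun r s => ENNReal.ofReal (r ^ a) * (ENNReal.ofReal (s ^ b) * f r s)) hG,
    push _ (ENNReal.natCast_ne_top _), push _ (ENNReal.natCast_ne_top _),
    push _ (ENNReal.natCast_ne_top _), push _ (ENNReal.natCast_ne_top _)]
  refine setLIntegral_congr_fun measurableSet_Ioi fun r hr => ?_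
  have hfr : Measurable fun t : ℝ => f (r * t) (r * (1 - t)) :=
    hf.comp ((measurable_id.const_mul r).prodMk ((measurable_const.sub measurable_id).const_mul r))
  rw [lint_Bt _ _ _ hfr, push _ ENNReal.ofReal_ne_top, push _ (ENNReal.natCast_ne_top _),
    push _ (ENNReal.natCast_ne_top _), push _ (ENNReal.natCast_ne_top _),
    push _ (ENNReal.natCast_ne_top _)]
  refine setLIntegral_congr_fun measurableSet_Ioo fun t ht => ?_
  exact ptP a b r t hr ht _

theorem ptS (a b : ℕ) (R t : ℝ) (hR : 0 < R) (ht : t ∈ Ioo (0 : ℝ) 1) (X : ℝ≥0∞) :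
    ((a + 1 : ℕ) : ℝ≥0∞) * (ENNReal.ofReal (R ^ (a + 1 + (b + 1) - 1)) *
        (ENNReal.ofReal (bd (b + 1) 1 t) * X)) =
    ((((a + 1) * (b + 1) : ℕ) : ℝ≥0∞) *
      (ENNReal.ofReal R * (ENNReal.ofReal (R ^ a) *
        (ENNReal.ofReal ((R * t) ^ b) * X)))) := by
  have ht0 : 0 < t := ht.1
  have ht1 : 0 < 1 - t := sub_pos.2 ht.2
  simp only [← mul_assoc]
  congr 1
  rw [← ENNReal.ofReal_natCast, ← ENNReal.ofReal_natCast, 
    ← ENNReal.ofReal_mul (by positivity),
    ← ENNReal.ofReal_mul (by positivity), ← ENNReal.ofReal_mul (by positivity),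
    ← ENNReal.ofReal_mul (by positivity), ← ENNReal.ofReal_mul (by positivity)]
  congr 1
  have e : a + 1 + (b + 1) - 1 = a + b + 1 := by omega
  simp only [bd, Nat.add_sub_cancel, e, Nat.factorial_succ, Nat.sub_self, Nat.factorial_zero]
  push_cast
  field_simp
  ring

theorem ps : S_PS := by
  intro a b ha hb f hf
  obtain ⟨a, rfl⟩ := Nat.exists_eq_add_of_le' ha
  obtain ⟨b, rfl⟩ := Nat.exists_eq_add_of_le' hb
  have e1 : ∫⁻ r in Ioi (0 : ℝ), ENNReal.ofReal (r ^ (a + 1 - 1)) *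
      ∫⁻ s in Ioi (0 : ℝ), ENNReal.ofReal (s ^ (b + 1 - 1)) * f r s =
      ∫⁻ r in Ioi (0 : ℝ), ∫⁻ s in Ioi (0 : ℝ),
        ENNReal.ofReal (r ^ a) * (ENNReal.ofReal (s ^ b) * f r s) := by
    refine lintegral_congr fun r => ?_
    rw [push _ ENNReal.ofReal_ne_top]
    rfl
  have hG : Measurable fun c : ℝ × ℝ => ENNReal.ofReal (c.1 ^ a) * (ENNReal.ofReal (c.2 ^ b) *
      f c.1 c.2) := by fun_prop
  rw [e1, coreS (fun r s => ENNReal.ofReal (r ^ a) * (ENNReal.ofReal (s ^ b) * f r s)) hG, mul_add]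
  congr 1
  · rw [push _ (ENNReal.natCast_ne_top _), push _ (ENNReal.natCast_ne_top _)]
    refine setLIntegral_congr_fun measurableSet_Ioi fun r hr => ?_
    have hfr : Measurable fun t : ℝ => f r (r * t) :=
      hf.comp (measurable_const.prodMk (measurable_id.const_mul r))
    rw [lint_Bt _ _ _ hfr, push _ ENNReal.ofReal_ne_top, push _ (ENNReal.natCast_ne_top _),
      push _ (ENNReal.natCast_ne_top _)]
    refine setLIntegral_congr_fun measurableSet_Ioo fun t ht => ?_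
    exact ptS a b r t hr ht _
  · rw [push _ (ENNReal.natCast_ne_top _), push _ (ENNReal.natCast_ne_top _)]
    refine setLIntegral_congr_fun measurableSet_Ioi fun r hr => ?_
    have hfr : Measurable fun t : ℝ => f (r * t) r :=
      hf.comp ((measurable_id.const_mul r).prodMk measurable_const)
    rw [lint_Bt _ _ _ hfr, push _ ENNReal.ofReal_ne_top, push _ (ENNReal.natCast_ne_top _),
      push _ (ENNReal.natCast_ne_top _)]
    refine setLIntegral_congr_fun measurableSet_Ioo fun t ht => ?_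
    have := ptS b a r t hr ht (f (r * t) r)
    rw [show b + 1 + (a + 1) = a + 1 + (b + 1) by ring] at this
    rw [this, mul_comm (b + 1) (a + 1)]
    ring

theorem thm : S_PP ∧ S_PS := ⟨pp, ps⟩

end Pool.Agent.TH592.PPS
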