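import Pool.Agent.TH580.LM.Fn

set_option autoImplicit false

namespace Pool.Agent.TH592.SU

open Pool.Agent.TH580.LM

theorem hh_one : hh 1 = 1 := by simp [hh]

theorem hh_two : hh 2 = 3 / 2 := by
  simp [hh, Finset.sum_range_succ]; norm_num

theorem CC_one : CC 1 1 = 2 - Real.log 2 := by
  simp only [CC]
  have h2 : hh (1 + 1) = 3 / 2 := hh_two
  rw [h2, hh_one]
  norm_num

theorem lam_zero : lam 0 = 0 := by simp [lam]

theorem kap_zero : kap 0 = 0 := by simp [kap]

theorem mf_zero (n : ℕ) (x : ℝ) : mf n x 0 = 0 := by simp [mf, lam_zero, kap_zero]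

/-- the algebra -/
theorem alg (a b hA hB L x y C l k A B W V w r s : ℝ) (hr : 0 ≤ r) (hs : 0 ≤ s)
    (hrs : r + s = 1) (hrb : r * b = s * a)
    (h1 : b * (k + 2 * L - 2 - w) + 2 * (b - 1) * (1 - L) - L + b * w + 1 + hB - y * (k - l) - B ≤ W)
    (h2 : a * (k + 2 * L - 2 - w) + 2 * (a - 1) * (1 - L) - L + a * w + 1 + hA - x * (k - l) - A ≤ V) :
    (1 + (x + y)) * l + (a + b - 1 - (x + y)) * k +
        (C - 2 + L - (s * A + r * B)) ≤
      C - s * (1 + hA) - r * (1 + hB) +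
        r * (((1 + x) * l + (a - 1 - x) * k) + W) +
        s * (((1 + y) * l + (b - 1 - y) * k) + V) := by
  have e1 := mul_le_mul_of_nonneg_left h1 hr
  have e2 := mul_le_mul_of_nonneg_left h2 hs
  have e3 : s = 1 - r := by linarith
  subst e3
  nlinarith [e1, e2, hrb]

theorem thm : S_WL → S_NI → S_SU := by
  intro hW hN a b x y z ha hb hx hxa hy hyb hz
  have hn : (0 : ℝ) < (a : ℝ) + b := by positivity
  have ha' : (0 : ℝ) ≤ (a : ℝ) / (a + b) := by positivity
  have hb' : (0 : ℝ) ≤ (b : ℝ) / (a + b) := by positivity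
  have hrs : (a : ℝ) / (a + b) + (b : ℝ) / (a + b) = 1 := by field_simp
  have hrb : (a : ℝ) / (a + b) * b = (b : ℝ) / (a + b) * a := by ring
  have key : ∀ z : ℝ, 0 ≤ z → mf (a + b) (x + y) z + (CC a b - 2 + Real.log 2 -
      ((b : ℝ) / (a + b) * (if a ≤ 2 then 0 else
      (2 / 5 - 1 / (20 * ((a : ℝ) - 1))) * (hh a - 3 / 2 + Real.log 2)) +
    (a : ℝ) / (a + b) * (if b ≤ 2 then 0 else
      (2 / 5 - 1 / (20 * ((b : ℝ) - 1))) * (hh b - 3 / 2 + Real.log 2)))) ≤
      CC a b - (b : ℝ) / (a + b) * (1 + hh a) - (a : ℝ) / (a + b) * (1 + hh b) +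
    (a : ℝ) / (a + b) * (mf a x z + WW b y z) + (b : ℝ) / (a + b) * (mf b y z + WW a x z) := by
    intro z hz
    have h1 := hW b y z hb hy hyb hz
    have h2 := hW a x z ha hx hxa hz
    have := alg a b (hh a) (hh b) (Real.log 2) x y (CC a b) (lam z) (kap z) _ _ _ _ _ _ _ ha' hb'
      hrs hrb h1 h2
    simp only [mf]
    push_cast
    exact this
  have h11 : a = 1 ∧ b = 1 → (CC a b - 2 + Real.log 2 -
      ((b : ℝ) / (a + b) * (if a ≤ 2 then 0 else
      (2 / 5 - 1 / (20 * ((a : ℝ) - 1))) * (hh a - 3 / 2 + Real.log 2)) +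
    (a : ℝ) / (a + b) * (if b ≤ 2 then 0 else
      (2 / 5 - 1 / (20 * ((b : ℝ) - 1))) * (hh b - 3 / 2 + Real.log 2)))) = 0 := by
    rintro ⟨rfl, rfl⟩
    rw [CC_one]
    simp
  constructor
  · have := key z hz
    by_cases h : a = 1 ∧ b = 1
    · have h' := h11 h
      rw [h', add_zero] at this
      exact this
    · have h' := hN a b ha hb h
      linarith
  · intro h
    have := key 0 le_rfl
    have h' := hN a b ha hb h
    simp only [mf_zero, zero_add] at this
    linarith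

end Pool.Agent.TH592.SU
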